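import Pool.Agent.Lib.MP_1e3e9c_ag.Facet

/-!
# Counting the facets of the nef cone on a general line
-/

set_option autoImplicit false

namespace Pool.Agent.Kobayashi

open Set Filter Topology

variable {r : ℕ}

theorem linePoly_shift {n : ℕ} (f : MultilinearMap ℝ (fun _ : Fin n => V r) ℝ) (a b : V r) (s : ℝ) :
    linePoly f a b = (linePoly f (a + s • b) b).comp (Polynomial.X - Polynomial.C s) := by
  refine Polynomial.funext fun t => ?_
  rw [Polynomial.eval_comp, Polynomial.eval_sub, Polynomial.eval_X, Polynomial.eval_C,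
    linePoly_eval, linePoly_eval]
  congr 1
  funext _
  rw [add_assoc, ← add_smul]
  congr 2
  ring

theorem X_sq_dvd_linePoly {n : ℕ} (f : MultilinearMap ℝ (fun _ : Fin n => V r) ℝ) {x b : V r}
    (h0 : f (fun _ => x) = 0) (h1 : ∀ i, f (Function.update (fun _ => x) i b) = 0) :
    Polynomial.X ^ 2 ∣ linePoly f x b := by
  unfold linePoly
  refine Finset.dvd_sum fun s _ => ?_
  by_cases hs : 2 ≤ (sᶜ).card
  · exact Dvd.dvd.mul_left (pow_dvd_pow _ hs) _
  · have h2 : f (s.piecewise (fun _ => x) (fun _ => b)) = 0 := by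
      have h3 : (sᶜ).card = 0 ∨ (sᶜ).card = 1 := by omega
      rcases h3 with h3 | h3
      · have h4 : s = Finset.univ := by
          rw [Finset.card_eq_zero, Finset.compl_eq_empty_iff] at h3
          exact h3
        rw [h4, Finset.piecewise_univ]
        exact h0
      · obtain ⟨i, hi⟩ := Finset.card_eq_one.1 h3
        have h4 : s.piecewise (fun _ => x) (fun _ => b) = Function.update (fun _ => x) i b := by
          funext j
          by_cases hj : j = i
          · subst hj
            rw [Function.update_self, Finset.piecewise_eq_of_notMem]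
            rw [← Finset.mem_compl, hi, Finset.mem_singleton]
          · rw [Function.update_of_ne hj, Finset.piecewise_eq_of_mem]
            by_contra hcon
            rw [← Finset.mem_compl, hi, Finset.mem_singleton] at hcon
            exact hj hcon
        rw [h4]
        exact h1 i
    rw [h2, Polynomial.C_0, zero_mul]
    exact dvd_zero _

/-- Counting roots with multiplicities. -/
theorem sum_le_natDegree {α : Type*} {p : Polynomial ℝ} (hp : p ≠ 0) (T : Finset α) (τ : α → ℝ)
    (hτ : ∀ x ∈ T, ∀ y ∈ T, τ x = τ y → x = y) (mult : α → ℕ)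
    (hm : ∀ x ∈ T, mult x ≤ p.rootMultiplicity (τ x)) : ∑ x ∈ T, mult x ≤ p.natDegree := by
  classical
  have h1 : ∑ x ∈ T, mult x ≤ ∑ x ∈ T, p.roots.count (τ x) :=
    Finset.sum_le_sum fun x hx => by rw [Polynomial.count_roots]; exact hm x hx
  have h2 : ∑ x ∈ T, p.roots.count (τ x) = ∑ y ∈ T.image τ, p.roots.count y := by
    rw [Finset.sum_image]
    intro x hx y hy hxy
    exact hτ x hx y hy hxy
  have h3 : ∑ y ∈ T.image τ, p.roots.count y ≤
      ∑ y ∈ T.image τ ∪ p.roots.toFinset, p.roots.count y :=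
    Finset.sum_le_sum_of_subset Finset.subset_union_left
  have h4 : ∑ y ∈ p.roots.toFinset, p.roots.count y =
      ∑ y ∈ T.image τ ∪ p.roots.toFinset, p.roots.count y := by
    refine Finset.sum_subset Finset.subset_union_right fun y _ hy => ?_
    rw [Multiset.mem_toFinset] at hy
    exact Multiset.count_eq_zero_of_notMem hy
  rw [← h4, Multiset.toFinset_sum_count_eq] at h3
  exact (h1.trans (h2.le.trans h3)).trans (Polynomial.card_roots' p)

/-- A direction separating finitely many functionals. -/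
theorem exists_direction (T : Finset (Module.Dual ℝ (V r))) (hT : ∀ φ ∈ T, φ ≠ 0) :
    ∃ b : V r, (∀ φ ∈ T, φ b ≠ 0) ∧ ∀ φ ∈ T, ∀ ψ ∈ T, φ b = ψ b → φ = ψ := by
  classical
  let S : Finset (Module.Dual ℝ (V r)) :=
    (T ∪ (T ×ˢ T).image (fun p => p.1 - p.2)).filter (fun φ => φ ≠ 0)
  obtain ⟨b, hb⟩ := Module.Dual.exists_forall_ne_zero_of_forall_exists
    (fun φ : S => (φ : Module.Dual ℝ (V r))) (fun φ => by
      have h1 : (φ : Module.Dual ℝ (V r)) ≠ 0 := (Finset.mem_filter.1 φ.2).2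
      by_contra hcon
      push Not at hcon
      exact h1 (LinearMap.ext hcon))
  refine ⟨b, fun φ hφ => ?_, fun φ hφ ψ hψ h => ?_⟩
  · exact hb ⟨φ, Finset.mem_filter.2 ⟨Finset.mem_union_left _ hφ, hT φ hφ⟩⟩
  · by_contra hne
    have h1 : φ - ψ ≠ 0 := sub_ne_zero.2 hne
    have h2 : φ - ψ ∈ S := Finset.mem_filter.2 ⟨Finset.mem_union_right _
      (Finset.mem_image.2 ⟨(φ, ψ), Finset.mem_product.2 ⟨hφ, hψ⟩, rfl⟩), h1⟩
    refine hb ⟨φ - ψ, h2⟩ ?_
    show (φ - ψ) b = 0
    rw [LinearMap.sub_apply, h, sub_self]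

/-- If a form of degree `m` vanishes on the kernels of the functionals of `T`, and vanishes doubly
on those of `TM`, then `|T| + |TM| ≤ m`. -/
theorem count_general {m : ℕ} (f : MultilinearMap ℝ (fun _ : Fin m => V r) ℝ) {a : V r}
    (ha : f (fun _ => a) ≠ 0) (T TM : Finset (Module.Dual ℝ (V r))) (hTM : TM ⊆ T)
    (h1 : ∀ φ ∈ T, φ a = 1) (h2 : ∀ φ ∈ T, ∀ x, φ x = 0 → f (fun _ => x) = 0)
    (h3 : ∀ φ ∈ TM, ∀ x, φ x = 0 → ∀ i h, f (Function.update (fun _ => x) i h) = 0) :
    T.card + TM.card ≤ m := by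
  classical
  obtain ⟨b, hb0, hb⟩ := exists_direction T (fun φ hφ h => by
    have := h1 φ hφ
    rw [h, LinearMap.zero_apply] at this
    exact zero_ne_one this)
  set p := linePoly f a b with hp
  have hp0 : p ≠ 0 := by
    intro h
    have h4 := linePoly_eval f a b 0
    rw [← hp, h, Polynomial.eval_zero, zero_smul, add_zero] at h4
    exact ha h4.symm
  have hker : ∀ φ ∈ T, φ (a + (-(φ b)⁻¹) • b) = 0 := by
    intro φ hφ
    rw [map_add, map_smul, h1 φ hφ, smul_eq_mul, neg_mul, inv_mul_cancel₀ (hb0 φ hφ)]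
    ring
  have key := sum_le_natDegree hp0 T (fun φ => -(φ b)⁻¹) (fun φ hφ ψ hψ h => by
    refine hb φ hφ ψ hψ ?_
    have h4 := neg_injective h
    exact inv_injective h4) (fun φ => if φ ∈ TM then 2 else 1) (fun φ hφ => by
      split_ifs with hM
      · rw [Polynomial.le_rootMultiplicity_iff hp0, hp, linePoly_shift f a b (-(φ b)⁻¹)]
        obtain ⟨q, hq⟩ := X_sq_dvd_linePoly f (x := a + (-(φ b)⁻¹) • b) (b := b)
          (h2 φ hφ _ (hker φ hφ)) (fun i => h3 φ hM _ (hker φ hφ) i b)
        rw [hq, Polynomial.mul_comp, Polynomial.pow_comp, Polynomial.X_comp]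
        exact dvd_mul_right _ _
      · have h4 : p.IsRoot (-(φ b)⁻¹) := by
          show p.eval _ = 0
          rw [hp, linePoly_eval]
          exact h2 φ hφ _ (hker φ hφ)
        exact (Polynomial.rootMultiplicity_pos hp0).2 h4)
  have h5 : ∑ φ ∈ T, (if φ ∈ TM then 2 else 1) = T.card + TM.card := by
    have h6 : ∀ φ ∈ T, (if φ ∈ TM then 2 else 1) = 1 + (if φ ∈ TM then 1 else 0) := by
      intro φ _
      split_ifs <;> rfl
    rw [Finset.sum_congr rfl h6, Finset.sum_add_distrib, Finset.sum_const, smul_eq_mul, mul_one,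
      Finset.sum_ite_mem, Finset.sum_const, smul_eq_mul, mul_one, Finset.inter_eq_right.2 hTM]
  rw [h5] at key
  exact key.trans (linePoly_natDegree f a b)

namespace NumData

variable {n : ℕ} (X : NumData n r)

/-- The functional of the facet with normal `w`, normalised at `a`. -/
noncomputable def nrm (a : V r) (w : Fin r → ℤ) : Module.Dual ℝ (V r) := (dot w a)⁻¹ • dotL w

theorem nrm_apply (a : V r) (w : Fin r → ℤ) (x : V r) : nrm a w x = (dot w a)⁻¹ * dot w x := rfl

/-- The normalised functionals of the facets. -/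
def facets (a : V r) : Set (Module.Dual ℝ (V r)) := {φ | ∃ w, X.IsFacet w ∧ φ = nrm a w}

theorem facets_apply_self {a : V r} (ha : a ∈ X.amp) {φ : Module.Dual ℝ (V r)}
    (hφ : φ ∈ X.facets a) : φ a = 1 := by
  obtain ⟨w, hw, rfl⟩ := hφ
  rw [nrm_apply, inv_mul_cancel₀ (hw.2.1 a ha).ne']

theorem nrm_eq_zero_iff {a : V r} (ha : a ∈ X.amp) {w : Fin r → ℤ} (hw : X.IsFacet w) {x : V r} :
    nrm a w x = 0 ↔ dot w x = 0 := by
  rw [nrm_apply, mul_eq_zero, or_iff_right (inv_ne_zero (hw.2.1 a ha).ne')]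

theorem facets_pos {a : V r} (ha : a ∈ X.amp) {φ : Module.Dual ℝ (V r)}
    (hφ : φ ∈ X.facets a) {x : V r} (hx : x ∈ X.amp) : 0 < φ x := by
  obtain ⟨w, hw, rfl⟩ := hφ
  rw [nrm_apply]
  exact mul_pos (inv_pos.2 (hw.2.1 a ha)) (hw.2.1 x hx)

theorem facets_nonneg {a : V r} (ha : a ∈ X.amp) {φ : Module.Dual ℝ (V r)}
    (hφ : φ ∈ X.facets a) {x : V r} (hx : x ∈ X.nef) : 0 ≤ φ x := by
  have h1 : IsClosed {y : V r | 0 ≤ φ y} :=
    isClosed_le continuous_const (LinearMap.continuous_of_finiteDimensional φ)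
  exact h1.closure_subset_iff.2 (fun y hy => (X.facets_pos ha hφ hy).le) hx

theorem finite_of_card_le {α : Type*} {F : Set α} {N : ℕ}
    (h : ∀ T : Finset α, (↑T : Set α) ⊆ F → T.card ≤ N) : F.Finite ∧ F.ncard ≤ N := by
  have hfin : F.Finite := by
    by_contra hcon
    obtain ⟨T, hT, hc⟩ := Set.Infinite.exists_subset_card_eq hcon (N + 1)
    have := h T hT
    omega
  refine ⟨hfin, ?_⟩
  rw [Set.ncard_eq_toFinset_card F hfin]
  exact h _ (by simp)

/-- On the segment from an ample class to a class which is not nef there is a boundary class. -/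
theorem exists_frontier {a x : V r} (ha : a ∈ X.amp) (hx : x ∉ X.nef) :
    ∃ t : ℝ, 0 ≤ t ∧ t ≤ 1 ∧ (1 - t) • a + t • x ∈ frontier X.amp := by
  have hS : IsPreconnected (segment ℝ a x) := (convex_segment a x).isPreconnected
  by_contra hcon
  push Not at hcon
  have h4 : segment ℝ a x ⊆ X.amp ∪ (closure X.amp)ᶜ := by
    rintro v ⟨c, d, hc, hd, hcd, rfl⟩
    have h5 := hcon d hd (by linarith)
    have h6 : 1 - d = c := by linarith
    rw [h6, X.mem_frontier_iff] at h5
    by_cases h7 : c • a + d • x ∈ X.amp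
    · exact Or.inl h7
    · exact Or.inr fun h8 => h5 ⟨h8, h7⟩
  have h3 : Disjoint X.amp (closure X.amp)ᶜ :=
    disjoint_compl_right.mono_left subset_closure
  rcases hS.subset_or_subset X.amp_open isClosed_closure.isOpen_compl h3 h4 with h5 | h5
  · exact hx (X.amp_sub_nef (h5 (right_mem_segment ℝ a x)))
  · exact h5 (left_mem_segment ℝ a x) (X.amp_sub_nef ha)

/-- If every boundary class lies on a rational hyperplane, and there are finitely many facets,
then the boundary is covered by the hyperplanes of the facets. -/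
theorem frontier_facets {a : V r} (ha : a ∈ X.amp) (hfin : (X.facets a).Finite)
    (hrel : ∀ D ∈ frontier X.amp, ∃ w : Fin r → ℤ, w ≠ 0 ∧ dot w D = 0) {D : V r}
    (hD : D ∈ frontier X.amp) : ∃ φ ∈ X.facets a, φ D = 0 := by
  haveI : CompleteSpace (frontier X.amp) := isClosed_frontier.completeSpace_coe
  let C : {w : Fin r → ℤ // w ≠ 0} → Set (frontier X.amp) := fun w => {D | dot w.1 D.1 = 0}
  have hC : ∀ w, IsClosed (C w) := fun w =>
    isClosed_eq ((dot_continuous w.1).comp continuous_subtype_val) continuous_const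
  have hU : ⋃ w, C w = univ := by
    refine eq_univ_of_forall fun D => ?_
    obtain ⟨w, hw, hwD⟩ := hrel D.1 D.2
    exact mem_iUnion.2 ⟨⟨w, hw⟩, hwD⟩
  have hdense := dense_iUnion_interior_of_closed hC hU
  have hG : IsClosed {D : frontier X.amp | ∃ φ ∈ X.facets a, φ D.1 = 0} := by
    have h1 : {D : frontier X.amp | ∃ φ ∈ X.facets a, φ D.1 = 0} =
        ⋃ φ ∈ X.facets a, {D : frontier X.amp | φ D.1 = 0} := by
      ext D
      simp
    rw [h1]
    refine hfin.isClosed_biUnion fun φ _ => ?_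
    exact isClosed_eq ((LinearMap.continuous_of_finiteDimensional φ).comp continuous_subtype_val)
      continuous_const
  have hsub : (⋃ w, interior (C w)) ⊆ {D : frontier X.amp | ∃ φ ∈ X.facets a, φ D.1 = 0} := by
    intro D hD
    obtain ⟨w, hw⟩ := mem_iUnion.1 hD
    obtain ⟨ρ, hρ, hball⟩ := Metric.mem_nhds_iff.1 (mem_interior_iff_mem_nhds.1 hw)
    have h1 : ∀ u ∈ Metric.ball D.1 ρ, u ∈ frontier X.amp → dot w.1 u = 0 := by
      intro u hu huf
      exact hball (show (⟨u, huf⟩ : frontier X.amp) ∈ Metric.ball D ρ from hu)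
    have h2 : dot w.1 D.1 = 0 := h1 D.1 (Metric.mem_ball_self hρ) D.2
    rcases X.isFacet_of_ball w.2 hρ D.2 h1 with h3 | h3
    · exact ⟨_, ⟨_, h3, rfl⟩, (X.nrm_eq_zero_iff ha h3).2 h2⟩
    · refine ⟨_, ⟨_, h3, rfl⟩, (X.nrm_eq_zero_iff ha h3).2 ?_⟩
      rw [neg_dot, h2, neg_zero]
  have h5 : (⟨D, hD⟩ : frontier X.amp) ∈ closure (⋃ w, interior (C w)) := hdense _
  exact hG.closure_subset_iff.2 hsub h5

/-- The nef cone is rational polyhedral. -/
theorem nef_eq {a : V r} (ha : a ∈ X.amp) (hfin : (X.facets a).Finite)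
    (hrel : ∀ D ∈ frontier X.amp, ∃ w : Fin r → ℤ, w ≠ 0 ∧ dot w D = 0) :
    X.nef = {x | ∀ φ ∈ X.facets a, 0 ≤ φ x} := by
  refine Subset.antisymm (fun x hx φ hφ => X.facets_nonneg ha hφ hx) fun x hx => ?_
  by_contra hcon
  obtain ⟨t, ht0, ht1, ht⟩ := X.exists_frontier ha hcon
  obtain ⟨φ, hφ, h1⟩ := X.frontier_facets ha hfin hrel ht
  have h2 := hx φ hφ
  rw [map_add, map_smul, map_smul, smul_eq_mul, smul_eq_mul, X.facets_apply_self ha hφ,
    mul_one] at h1
  have h3 := mul_nonneg ht0 h2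
  have h4 : t = 1 := by linarith
  rw [h4, sub_self, zero_smul, one_smul, zero_add] at ht
  exact hcon (X.mem_frontier_iff.1 ht).1

/-- Enumeration of the facets. -/
theorem exists_normals {a : V r} (ha : a ∈ X.amp) (hfin : (X.facets a).Finite)
    (hrel : ∀ D ∈ frontier X.amp, ∃ w : Fin r → ℤ, w ≠ 0 ∧ dot w D = 0) :
    r ≤ (X.facets a).ncard ∧ ∃ w : Fin (X.facets a).ncard → Fin r → ℤ, (∀ i, X.IsFacet (w i)) ∧
      (Function.Injective fun i => nrm a (w i)) ∧ X.nef = {x | ∀ i, 0 ≤ dot (w i) x} := by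
  classical
  have hcard : (X.facets a).ncard = hfin.toFinset.card := Set.ncard_eq_toFinset_card _ hfin
  let e : Fin (X.facets a).ncard ≃ hfin.toFinset := (Fin.castOrderIso hcard).toEquiv.trans
    hfin.toFinset.equivFin.symm
  have h1 : ∀ i, (e i : Module.Dual ℝ (V r)) ∈ X.facets a := fun i => hfin.mem_toFinset.1 (e i).2
  choose w hw hwe using h1
  have hinj : Function.Injective fun i => nrm a (w i) := by
    intro i j hij
    have h2 : (e i : Module.Dual ℝ (V r)) = e j := by
      rw [hwe i, hwe j]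
      exact hij
    exact e.injective (Subtype.ext h2)
  have hnef : X.nef = {x | ∀ i, 0 ≤ dot (w i) x} := by
    rw [X.nef_eq ha hfin hrel]
    ext x
    constructor
    · intro hx i
      have h2 := hx _ ⟨w i, hw i, rfl⟩
      rw [nrm_apply] at h2
      exact nonneg_of_mul_nonneg_right h2 (inv_pos.2 ((hw i).2.1 a ha))
    · intro hx φ hφ
      have h3 : φ ∈ hfin.toFinset := hfin.mem_toFinset.2 hφ
      have h4 : φ = nrm a (w (e.symm ⟨φ, h3⟩)) := by
        rw [← hwe, Equiv.apply_symm_apply]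
      rw [h4, nrm_apply]
      exact mul_nonneg (inv_pos.2 ((hw _).2.1 a ha)).le (hx _)
  refine ⟨?_, w, hw, hinj, hnef⟩
  let L : V r →ₗ[ℝ] (Fin (X.facets a).ncard → ℝ) := LinearMap.pi fun i => dotL (w i)
  have hL : Function.Injective L := by
    rw [← LinearMap.ker_eq_bot, LinearMap.ker_eq_bot']
    intro x hx
    have h2 : ∀ i, dot (w i) x = 0 := fun i => congrFun hx i
    refine X.salient x ?_ ?_
    · show x ∈ X.nef
      rw [hnef]
      intro i
      rw [h2 i]
    · show -x ∈ X.nef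
      rw [hnef]
      intro i
      rw [dot_neg, h2 i, neg_zero]
  have h3 := LinearMap.finrank_le_finrank_of_injective hL
  simpa using h3

end NumData

end Pool.Agent.Kobayashi
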