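import Mathlib

/-!
# Numerical data of projective varieties with trivial canonical class: definitions

`V r = ℝ^r` is the real Néron-Severi space `N¹(X)_ℝ` of a smooth complex projective variety `X` of
Picard number `r`, with its lattice `ℤ^r` (`toR`).
-/

set_option autoImplicit false

namespace Pool.Agent.Kobayashi

/-- The real Néron-Severi space. -/
abbrev V (r : ℕ) : Type := Fin r → ℝ

/-- An integral class. -/
def toR {r : ℕ} (z : Fin r → ℤ) : V r := fun i => (z i : ℝ)

/-- The integral linear form with coefficients `w`. -/
def dot {r : ℕ} (w : Fin r → ℤ) (x : V r) : ℝ := ∑ i, (w i : ℝ) * x i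

/-- Numerical data of a smooth complex projective variety of dimension `n` and Picard number `r`:
the intersection form of divisor classes and the ample cone. -/
structure NumData (n r : ℕ) where
  /-- The intersection numbers `x_1 ⋯ x_n`. -/
  form : MultilinearMap ℝ (fun _ : Fin n => V r) ℝ
  symm : ∀ (σ : Equiv.Perm (Fin n)) (x : Fin n → V r), form (fun i => x (σ i)) = form x
  integral : ∀ z : Fin n → Fin r → ℤ, ∃ k : ℤ, form (fun i => toR (z i)) = k
  /-- The ample cone. -/
  amp : Set (V r)
  amp_open : IsOpen amp
  amp_convex : Convex ℝ amp
  amp_smul : ∀ t : ℝ, 0 < t → ∀ x ∈ amp, t • x ∈ amp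
  amp_nonempty : amp.Nonempty
  /-- Intersection numbers of ample classes are positive. -/
  amp_pos : ∀ x : Fin n → V r, (∀ i, x i ∈ amp) → 0 < form x
  /-- The nef cone contains no line (Kleiman). -/
  salient : ∀ x : V r, x ∈ closure amp → -x ∈ closure amp → x = 0

namespace NumData

variable {n r : ℕ} (X : NumData n r)

/-- The nef cone. -/
def nef : Set (V r) := closure X.amp

/-- The top self-intersection `x^n`. -/
def top (x : V r) : ℝ := X.form (fun _ => x)

/-- The intersection number `h · x^(n-1)`, with `h` in the place `i` (all places give the same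
number). -/
def mix (i : Fin n) (h x : V r) : ℝ := X.form (Function.update (fun _ => x) i h)

end NumData

/-- Numerical data of a variety with numerically trivial canonical class and without rational
curves: nef and big classes are ample. -/
structure KTrivialData (n r : ℕ) extends NumData n r where
  nef_big : ∀ x ∈ closure amp, 0 < form (fun _ => x) → x ∈ amp

/-- Numerical data of a Kobayashi hyperbolic variety of dimension `n = m + 2` with numerically
trivial canonical class. -/
structure HyperbolicData (m r : ℕ) extends KTrivialData (m + 2) r where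
  /-- The irreducible curves on `X`. -/
  Curve : Type
  /-- The genus of the normalisation. -/
  genus : Curve → ℕ
  /-- The degree of a divisor class on a curve. -/
  deg : Curve → V r →ₗ[ℝ] ℝ
  /-- Some multiple `k z` of every integral ample class `z` is base point free, with `k`
  independent of `z`; the intersection of `m + 1` general members of `|k z|` is a smooth
  irreducible curve, with canonical class `(m + 1) k z`. -/
  complete_intersection : ∃ k : ℕ, 0 < k ∧ ∀ z : Fin r → ℤ, toR z ∈ amp → ∃ C : Curve,
    (∀ L : V r, deg C L = (k : ℝ) ^ (m + 1) * form (Function.update (fun _ => toR z) 0 L)) ∧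
      2 * (genus C : ℝ) - 2 = (m + 1) * (k : ℝ) ^ (m + 2) * form (fun _ => toR z)
  /-- Algebraic hyperbolicity. -/
  algebraic_hyperbolicity : ∀ h ∈ amp, ∃ ε : ℝ, 0 < ε ∧
    ∀ C : Curve, ε * deg C h ≤ 2 * (genus C : ℝ) - 2
  /-- The intersection numbers with the second Chern class, `c_2(X) · x_1 ⋯ x_m`. -/
  c2 : MultilinearMap ℝ (fun _ : Fin m => V r) ℝ
  c2_pos : ∀ x : Fin m → V r, (∀ i, x i ∈ amp) → 0 < c2 x
  /-- There is no nef integral class `z` with `z^n = 0`, `z^(n-1) ≠ 0` and `c_2(X) · z^(n-2) > 0`:
  it would define a fibration in elliptic curves. -/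
  no_elliptic_fibration : ∀ z : Fin r → ℤ, toR z ∈ closure amp → form (fun _ => toR z) = 0 →
    (∃ h : V r, form (Function.update (fun _ => toR z) 0 h) ≠ 0) → c2 (fun _ => toR z) ≤ 0

/-- Numerical data of a Kobayashi hyperbolic threefold with numerically trivial canonical class: in
addition, there is no nef integral class `z` with `z^2 = 0` and `c_2(X) · z > 0`, since it would
define a fibration in K3 surfaces. -/
structure HyperbolicThreefoldData (r : ℕ) extends HyperbolicData 1 r where
  no_k3_fibration : ∀ z : Fin r → ℤ, toR z ∈ closure amp →
    (∀ h : V r, form (Function.update (fun _ => toR z) 0 h) = 0) → c2 (fun _ => toR z) ≤ 0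

end Pool.Agent.Kobayashi
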