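import Pool.Agent.Lib.MP_1e3e9c_ag.Threefold

/-!
# Examples of numerical data
-/

set_option autoImplicit false

namespace Pool.Agent.Kobayashi

open Set Filter Topology

theorem convex_pos {r : ℕ} (i : Fin r) : Convex ℝ {x : V r | 0 < x i} := by
  have h := (convex_Ioi (0 : ℝ)).linear_preimage
    (LinearMap.proj i : (Fin r → ℝ) →ₗ[ℝ] ℝ)
  exact h

section one

/-- The cubic form `x ^ 3`. -/
noncomputable def cub : MultilinearMap ℝ (fun _ : Fin 3 => V 1) ℝ :=
  (MultilinearMap.mkPiAlgebra ℝ (Fin 3) ℝ).compLinearMap (fun _ => LinearMap.proj 0)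

theorem cub_apply (x : Fin 3 → V 1) : cub x = ∏ i, x i 0 := rfl

/-- The linear form `x`. -/
noncomputable def lin1 : MultilinearMap ℝ (fun _ : Fin 1 => V 1) ℝ :=
  (MultilinearMap.mkPiAlgebra ℝ (Fin 1) ℝ).compLinearMap (fun _ => LinearMap.proj 0)

theorem lin1_apply (x : Fin 1 → V 1) : lin1 x = ∏ i, x i 0 := rfl

theorem closure_amp1 {x : V 1} (hx : x ∈ closure {y : V 1 | 0 < y 0}) : 0 ≤ x 0 := by
  have h1 : IsClosed {y : V 1 | 0 ≤ y 0} := isClosed_le continuous_const (continuous_apply 0)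
  exact h1.closure_subset_iff.2 (fun y (hy : 0 < y 0) => hy.le) hx

theorem cub_update (x h : V 1) : cub (Function.update (fun _ => x) 0 h) = h 0 * x 0 ^ 2 := by
  rw [cub_apply, Fin.prod_univ_three, Function.update_self,
    Function.update_of_ne (by decide), Function.update_of_ne (by decide)]
  ring

theorem cub_self (x : V 1) : cub (fun _ => x) = x 0 ^ 3 := by
  rw [cub_apply, Fin.prod_univ_three]
  ring

/-- Numerical data with Picard number one. -/
noncomputable def exampleOne : HyperbolicThreefoldData 1 where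
  form := cub
  symm σ x := by
    rw [cub_apply, cub_apply]
    exact Equiv.prod_comp σ fun i => x i 0
  integral z := ⟨∏ i, z i 0, by
    rw [cub_apply]
    push_cast
    rfl⟩
  amp := {x | 0 < x 0}
  amp_open := isOpen_lt continuous_const (continuous_apply 0)
  amp_convex := convex_pos 0
  amp_smul t ht x hx := mul_pos ht hx
  amp_nonempty := ⟨fun _ => 1, show (0 : ℝ) < 1 from zero_lt_one⟩
  amp_pos x hx := by
    rw [cub_apply]
    exact Finset.prod_pos fun i _ => hx i
  salient x hx hx' := by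
    have h1 := closure_amp1 hx
    have h2 : 0 ≤ (-x) 0 := closure_amp1 hx'
    rw [Pi.neg_apply] at h2
    funext i
    rw [Subsingleton.elim i 0]
    show x 0 = 0
    linarith
  nef_big x hx h := by
    have h1 := closure_amp1 hx
    rcases h1.lt_or_eq with h2 | h2
    · exact h2
    · rw [cub_self, ← h2] at h
      norm_num at h
  Curve := ℕ
  genus k := (k + 1) ^ 3 + 1
  deg k := ((k : ℝ) + 1) ^ 2 • LinearMap.proj 0
  complete_intersection := by
    refine ⟨1, one_pos, fun z hz => ?_⟩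
    have hz' : (0 : ℝ) < (z 0 : ℝ) := hz
    have hz0 : 0 < z 0 := by exact_mod_cast hz'
    refine ⟨(z 0 - 1).toNat, fun L => ?_, ?_⟩
    · rw [cub_update]
      have h1 : (((z 0 - 1).toNat : ℕ) : ℝ) = (z 0 : ℝ) - 1 := by
        have : (((z 0 - 1).toNat : ℕ) : ℤ) = z 0 - 1 := Int.toNat_of_nonneg (by omega)
        have h2 : ((((z 0 - 1).toNat : ℕ) : ℤ) : ℝ) = ((z 0 - 1 : ℤ) : ℝ) := by rw [this]
        rw [Int.cast_natCast] at h2
        rw [h2]
        push_cast
        ring
      show (((((z 0 - 1).toNat : ℕ) : ℝ) + 1) ^ 2) * L 0 = _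
      rw [h1]
      unfold toR
      push_cast
      ring
    · rw [cub_self]
      have h1 : (((z 0 - 1).toNat : ℕ) : ℝ) = (z 0 : ℝ) - 1 := by
        have : (((z 0 - 1).toNat : ℕ) : ℤ) = z 0 - 1 := Int.toNat_of_nonneg (by omega)
        have h2 : ((((z 0 - 1).toNat : ℕ) : ℤ) : ℝ) = ((z 0 - 1 : ℤ) : ℝ) := by rw [this]
        rw [Int.cast_natCast] at h2
        rw [h2]
        push_cast
        ring
      push_cast
      rw [h1]
      unfold toR
      ring
  algebraic_hyperbolicity h hh := by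
    have hh' : (0 : ℝ) < h 0 := hh
    refine ⟨2 / h 0, by positivity, fun C => ?_⟩
    show 2 / h 0 * (((C : ℝ) + 1) ^ 2 * h 0) ≤ 2 * (((C + 1) ^ 3 + 1 : ℕ) : ℝ) - 2
    have h1 : 2 / h 0 * (((C : ℝ) + 1) ^ 2 * h 0) = 2 * ((C : ℝ) + 1) ^ 2 := by
      field_simp
    rw [h1]
    push_cast
    have h2 : (0 : ℝ) ≤ (C : ℝ) := Nat.cast_nonneg C
    nlinarith [mul_nonneg h2 (sq_nonneg ((C : ℝ) + 1))]
  c2 := lin1
  c2_pos x hx := by
    rw [lin1_apply]
    exact Finset.prod_pos fun i _ => hx i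
  no_elliptic_fibration z hz h0 := by
    rintro ⟨h, hh⟩
    exfalso
    apply hh
    rw [cub_self] at h0
    have h1 : (toR z : V 1) 0 = 0 := by
      exact pow_eq_zero_iff (n := 3) (by norm_num) |>.1 h0
    rw [cub_update, h1]
    ring
  no_k3_fibration z hz h0 := by
    have h1 := h0 (fun _ => 1)
    rw [cub_update, one_mul] at h1
    have h2 : (toR z : V 1) 0 = 0 := by
      exact pow_eq_zero_iff (n := 2) (by norm_num) |>.1 h1
    rw [lin1_apply]
    simp [h2]

end one

section two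

/-- The cubic form `3 x y ^ 2`, polarised. -/
noncomputable def cub2 : MultilinearMap ℝ (fun _ : Fin 3 => V 2) ℝ :=
  ∑ j : Fin 3, (MultilinearMap.mkPiAlgebra ℝ (Fin 3) ℝ).compLinearMap
    (fun i => if i = j then LinearMap.proj 0 else LinearMap.proj 1)

theorem cub2_apply (x : Fin 3 → V 2) :
    cub2 x = ∑ j, ∏ i, (if i = j then x i 0 else x i 1) := by
  unfold cub2
  rw [sum_apply]
  refine Finset.sum_congr rfl fun j _ => ?_
  rw [MultilinearMap.compLinearMap_apply, MultilinearMap.mkPiAlgebra_apply]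
  refine Finset.prod_congr rfl fun i _ => ?_
  split_ifs <;> rfl

theorem cub2_update (x h : V 2) :
    cub2 (Function.update (fun _ => x) 0 h) = h 0 * x 1 ^ 2 + 2 * (h 1 * (x 0 * x 1)) := by
  rw [cub2_apply, Fin.sum_univ_three, Fin.prod_univ_three, Fin.prod_univ_three,
    Fin.prod_univ_three, Function.update_self, Function.update_of_ne (by decide),
    Function.update_of_ne (by decide)]
  simp only [if_true, Fin.reduceEq, if_false, Fin.isValue]
  ring

theorem cub2_self (x : V 2) : cub2 (fun _ => x) = 3 * (x 0 * x 1 ^ 2) := by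
  have h1 : (fun _ : Fin 3 => x) = Function.update (fun _ => x) 0 x := by
    rw [Function.update_eq_self]
  rw [h1, cub2_update]
  ring

/-- The linear form `x`. -/
noncomputable def lin2 : MultilinearMap ℝ (fun _ : Fin 1 => V 2) ℝ :=
  (MultilinearMap.mkPiAlgebra ℝ (Fin 1) ℝ).compLinearMap (fun _ => LinearMap.proj 0)

theorem lin2_apply (x : Fin 1 → V 2) : lin2 x = ∏ i, x i 0 := rfl

theorem closure_amp2 {x : V 2} (hx : x ∈ closure {y : V 2 | 0 < y 0 ∧ 0 < y 1}) :
    0 ≤ x 0 ∧ 0 ≤ x 1 := by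
  have h1 : IsClosed {y : V 2 | 0 ≤ y 0 ∧ 0 ≤ y 1} :=
    (isClosed_le continuous_const (continuous_apply 0)).inter
      (isClosed_le continuous_const (continuous_apply 1))
  exact h1.closure_subset_iff.2 (fun y (hy : 0 < y 0 ∧ 0 < y 1) => ⟨hy.1.le, hy.2.le⟩) hx

/-- Numerical data with Picard number two. -/
noncomputable def exampleTwo : HyperbolicData 1 2 where
  form := cub2
  symm σ x := by
    rw [cub2_apply, cub2_apply]
    rw [← Equiv.sum_comp σ fun j => ∏ i, (if i = j then x i 0 else x i 1)]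
    refine Finset.sum_congr rfl fun j _ => ?_
    rw [← Equiv.prod_comp σ fun i => (if i = σ j then x i 0 else x i 1)]
    refine Finset.prod_congr rfl fun i _ => ?_
    simp only [σ.injective.eq_iff]
  integral z := ⟨∑ j, ∏ i, (if i = j then z i 0 else z i 1), by
    rw [cub2_apply]
    push_cast
    rfl⟩
  amp := {x | 0 < x 0 ∧ 0 < x 1}
  amp_open := (isOpen_lt continuous_const (continuous_apply 0)).inter
    (isOpen_lt continuous_const (continuous_apply 1))
  amp_convex := (convex_pos 0).inter (convex_pos 1)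
  amp_smul t ht x hx := ⟨mul_pos ht hx.1, mul_pos ht hx.2⟩
  amp_nonempty := ⟨fun _ => 1, show (0 : ℝ) < 1 from zero_lt_one,
    show (0 : ℝ) < 1 from zero_lt_one⟩
  amp_pos x hx := by
    rw [cub2_apply]
    refine Finset.sum_pos (fun j _ => Finset.prod_pos fun i _ => ?_) ⟨0, Finset.mem_univ 0⟩
    split_ifs
    · exact (hx i).1
    · exact (hx i).2
  salient x hx hx' := by
    have h1 := closure_amp2 hx
    have h2 : 0 ≤ (-x) 0 ∧ 0 ≤ (-x) 1 := closure_amp2 hx'
    rw [Pi.neg_apply, Pi.neg_apply] at h2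
    funext i
    obtain ⟨h3, h4⟩ := h2
    obtain ⟨h5, h6⟩ := h1
    fin_cases i
    · show x 0 = 0
      linarith
    · show x 1 = 0
      linarith
  nef_big x hx h := by
    obtain ⟨h1, h2⟩ := closure_amp2 hx
    rw [cub2_self] at h
    rcases h1.lt_or_eq with h3 | h3
    · rcases h2.lt_or_eq with h4 | h4
      · exact ⟨h3, h4⟩
      · rw [← h4] at h
        norm_num at h
    · rw [← h3] at h
      norm_num at h
  Curve := ℕ × ℕ
  genus k := 3 * (k.1 + 1) * (k.2 + 1) ^ 2 + 1
  deg k := (((k.2 : ℝ) + 1) ^ 2) • LinearMap.proj 0 +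
    (2 * (((k.1 : ℝ) + 1) * ((k.2 : ℝ) + 1))) • LinearMap.proj 1
  complete_intersection := by
    refine ⟨1, one_pos, fun z hz => ?_⟩
    have hz0' : (0 : ℝ) < (z 0 : ℝ) := hz.1
    have hz1' : (0 : ℝ) < (z 1 : ℝ) := hz.2
    have hz0 : 0 < z 0 := by exact_mod_cast hz0'
    have hz1 : 0 < z 1 := by exact_mod_cast hz1'
    have cast : ∀ y : ℤ, 0 < y → (((y - 1).toNat : ℕ) : ℝ) = (y : ℝ) - 1 := by
      intro y hy
      have h3 : (((y - 1).toNat : ℕ) : ℤ) = y - 1 := Int.toNat_of_nonneg (by omega)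
      have h2 : ((((y - 1).toNat : ℕ) : ℤ) : ℝ) = ((y - 1 : ℤ) : ℝ) := by rw [h3]
      rw [Int.cast_natCast] at h2
      rw [h2]
      push_cast
      ring
    refine ⟨((z 0 - 1).toNat, (z 1 - 1).toNat), fun L => ?_, ?_⟩
    · rw [cub2_update]
      show (((((z 1 - 1).toNat : ℕ) : ℝ) + 1) ^ 2) * L 0 +
        (2 * (((((z 0 - 1).toNat : ℕ) : ℝ) + 1) * ((((z 1 - 1).toNat : ℕ) : ℝ) + 1))) * L 1 = _
      rw [cast _ hz0, cast _ hz1]
      unfold toR
      push_cast
      ring
    · rw [cub2_self]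
      push_cast
      rw [cast _ hz0, cast _ hz1]
      unfold toR
      ring
  algebraic_hyperbolicity h hh := by
    have hh0 : (0 : ℝ) < h 0 := hh.1
    have hh1 : (0 : ℝ) < h 1 := hh.2
    refine ⟨1 / (h 0 + h 1), by positivity, fun C => ?_⟩
    show 1 / (h 0 + h 1) * ((((C.2 : ℝ) + 1) ^ 2) * h 0 +
      (2 * (((C.1 : ℝ) + 1) * ((C.2 : ℝ) + 1))) * h 1) ≤
        2 * ((3 * (C.1 + 1) * (C.2 + 1) ^ 2 + 1 : ℕ) : ℝ) - 2
    push_cast
    have h2 : (0 : ℝ) ≤ (C.1 : ℝ) := Nat.cast_nonneg C.1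
    have h3 : (0 : ℝ) ≤ (C.2 : ℝ) := Nat.cast_nonneg C.2
    generalize (C.1 : ℝ) = p at h2
    generalize (C.2 : ℝ) = q at h3
    have h4 : (q + 1) ^ 2 * h 0 + (2 * ((p + 1) * (q + 1))) * h 1 ≤
        (6 * ((p + 1) * (q + 1) ^ 2)) * (h 0 + h 1) := by
      have h5 : (q + 1) ^ 2 ≤ 6 * ((p + 1) * (q + 1) ^ 2) := by nlinarith [sq_nonneg (q + 1)]
      have h6 : 2 * ((p + 1) * (q + 1)) ≤ 6 * ((p + 1) * (q + 1) ^ 2) := by
        have h7 : 0 ≤ (p + 1) * (q + 1) := by positivity
        nlinarith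
      nlinarith [mul_le_mul_of_nonneg_right h5 hh0.le, mul_le_mul_of_nonneg_right h6 hh1.le]
    rw [one_div, inv_mul_le_iff₀ (by positivity)]
    nlinarith
  c2 := lin2
  c2_pos x hx := by
    rw [lin2_apply]
    exact Finset.prod_pos fun i _ => (hx i).1
  no_elliptic_fibration z hz h0 := by
    rintro ⟨h, hh⟩
    rw [cub2_self] at h0
    rw [cub2_update] at hh
    rw [lin2_apply]
    simp only [Finset.univ_unique, Fin.default_eq_zero, Fin.isValue, Finset.prod_singleton]
    by_contra hcon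
    push Not at hcon
    have h1 : (toR z : V 2) 1 = 0 := by
      by_contra h2
      have h3 : (toR z : V 2) 0 * (toR z : V 2) 1 ^ 2 ≠ 0 := mul_ne_zero hcon.ne' (pow_ne_zero _ h2)
      apply h3
      linarith
    apply hh
    rw [h1]
    ring

end two

end Pool.Agent.Kobayashi
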