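import Pool.Agent.Lib.MP_1e3e9c_ag.Fourfold
import Pool.Agent.Lib.MP_1e3e9c_ag.Examples

/-!
# Examples of numerical data in dimension four
-/

set_option autoImplicit false

namespace Pool.Agent.Kobayashi

open Set Filter Topology

theorem cast_pred {y : ℤ} (hy : 0 < y) : (((y - 1).toNat : ℕ) : ℝ) + 1 = (y : ℝ) := by
  have h3 : (((y - 1).toNat : ℕ) : ℤ) = y - 1 := Int.toNat_of_nonneg (by omega)
  have h2 : ((((y - 1).toNat : ℕ) : ℤ) : ℝ) = ((y - 1 : ℤ) : ℝ) := by rw [h3]
  rw [Int.cast_natCast] at h2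
  rw [h2]
  push_cast
  ring

section one

/-- The quartic form `x ^ 4`. -/
noncomputable def quart : MultilinearMap ℝ (fun _ : Fin 4 => V 1) ℝ :=
  (MultilinearMap.mkPiAlgebra ℝ (Fin 4) ℝ).compLinearMap (fun _ => LinearMap.proj 0)

theorem quart_apply (x : Fin 4 → V 1) : quart x = ∏ i, x i 0 := rfl

theorem quart_update (x h : V 1) : quart (Function.update (fun _ => x) 0 h) = h 0 * x 0 ^ 3 := by
  rw [quart_apply, Fin.prod_univ_four, Function.update_self, Function.update_of_ne (by decide),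
    Function.update_of_ne (by decide), Function.update_of_ne (by decide)]
  ring

theorem quart_self (x : V 1) : quart (fun _ => x) = x 0 ^ 4 := by
  rw [quart_apply, Fin.prod_univ_four]
  ring

/-- Numerical data of a fourfold with Picard number one. -/
noncomputable def exampleFourOne : HyperbolicFourfoldData 1 where
  form := quart
  symm σ x := by
    rw [quart_apply, quart_apply]
    exact Equiv.prod_comp σ fun i => x i 0
  integral z := ⟨∏ i, z i 0, by
    rw [quart_apply]
    push_cast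
    rfl⟩
  amp := {x | 0 < x 0}
  amp_open := isOpen_lt continuous_const (continuous_apply 0)
  amp_convex := convex_pos 0
  amp_smul t ht x hx := mul_pos ht hx
  amp_nonempty := ⟨fun _ => 1, show (0 : ℝ) < 1 from zero_lt_one⟩
  amp_pos x hx := by
    rw [quart_apply]
    exact Finset.prod_pos fun i _ => hx i
  salient x hx hx' := by
    have h1 := closure_amp1 hx
    have h2 : 0 ≤ (-x) 0 := closure_amp1 hx'
    rw [Pi.neg_apply] at h2
    funext i
    rw [Subsingleton.elim i 0]
    show x 0 = 0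
    linarith
  nef_big x hx h := by
    have h1 := closure_amp1 hx
    rcases h1.lt_or_eq with h2 | h2
    · exact h2
    · rw [quart_self, ← h2] at h
      norm_num at h
  Curve := ℕ
  genus k := 24 * (k + 1) ^ 4 + 1
  deg k := (8 * ((k : ℝ) + 1) ^ 3) • LinearMap.proj 0
  complete_intersection := by
    refine ⟨2, two_pos, fun z hz => ?_⟩
    have hz' : (0 : ℝ) < (z 0 : ℝ) := hz
    have hz0 : 0 < z 0 := by exact_mod_cast hz'
    refine ⟨(z 0 - 1).toNat, fun L => ?_, ?_⟩
    · rw [quart_update]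
      show (8 * ((((z 0 - 1).toNat : ℕ) : ℝ) + 1) ^ 3) * L 0 = _
      rw [cast_pred hz0]
      unfold toR
      push_cast
      ring
    · rw [quart_self]
      push_cast
      rw [cast_pred hz0]
      unfold toR
      ring
  algebraic_hyperbolicity h hh := by
    have hh' : (0 : ℝ) < h 0 := hh
    refine ⟨6 / h 0, by positivity, fun C => ?_⟩
    show 6 / h 0 * ((8 * ((C : ℝ) + 1) ^ 3) * h 0) ≤ 2 * ((24 * (C + 1) ^ 4 + 1 : ℕ) : ℝ) - 2
    have h1 : 6 / h 0 * ((8 * ((C : ℝ) + 1) ^ 3) * h 0) = 48 * ((C : ℝ) + 1) ^ 3 := by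
      field_simp
      ring
    rw [h1]
    push_cast
    have h2 : (0 : ℝ) ≤ (C : ℝ) := Nat.cast_nonneg C
    have h3 : 0 ≤ (C : ℝ) * ((C : ℝ) + 1) ^ 3 := by positivity
    nlinarith
  no_elliptic_fibration z hz h0 h := by
    rw [quart_self] at h0
    have h1 : (toR z : V 1) 0 = 0 := by
      exact pow_eq_zero_iff (n := 4) (by norm_num) |>.1 h0
    rw [quart_update, h1]
    ring

end one

section two

/-- The quartic form `6 x ^ 2 y ^ 2`, polarised. -/
noncomputable def quart2 : MultilinearMap ℝ (fun _ : Fin 4 => V 2) ℝ :=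
  ∑ S ∈ (Finset.univ : Finset (Finset (Fin 4))).filter (fun S => S.card = 2),
    (MultilinearMap.mkPiAlgebra ℝ (Fin 4) ℝ).compLinearMap
      (fun i => if i ∈ S then LinearMap.proj 0 else LinearMap.proj 1)

theorem quart2_apply (x : Fin 4 → V 2) :
    quart2 x = ∑ S ∈ (Finset.univ : Finset (Finset (Fin 4))).filter (fun S => S.card = 2),
      ∏ i, (if i ∈ S then x i 0 else x i 1) := by
  unfold quart2
  rw [sum_apply]
  refine Finset.sum_congr rfl fun j _ => ?_
  rw [MultilinearMap.compLinearMap_apply, MultilinearMap.mkPiAlgebra_apply]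
  refine Finset.prod_congr rfl fun i _ => ?_
  split_ifs <;> rfl

theorem pairs_four : (Finset.univ : Finset (Finset (Fin 4))).filter (fun S => S.card = 2) =
    {{0, 1}, {0, 2}, {0, 3}, {1, 2}, {1, 3}, {2, 3}} := by
  decide

theorem quart2_update (x h : V 2) :
    quart2 (Function.update (fun _ => x) 0 h) =
      3 * (h 0 * (x 0 * x 1 ^ 2)) + 3 * (h 1 * (x 0 ^ 2 * x 1)) := by
  rw [quart2_apply, pairs_four]
  rw [Finset.sum_insert (by decide), Finset.sum_insert (by decide), Finset.sum_insert (by decide),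
    Finset.sum_insert (by decide), Finset.sum_insert (by decide), Finset.sum_singleton]
  simp only [Fin.prod_univ_four, Function.update_self, Function.update_of_ne (show (1 : Fin 4) ≠ 0 by decide),
    Function.update_of_ne (show (2 : Fin 4) ≠ 0 by decide),
    Function.update_of_ne (show (3 : Fin 4) ≠ 0 by decide), Finset.mem_insert, Finset.mem_singleton]
  simp
  ring

theorem quart2_self (x : V 2) : quart2 (fun _ => x) = 6 * (x 0 ^ 2 * x 1 ^ 2) := by
  have h1 : (fun _ : Fin 4 => x) = Function.update (fun _ => x) 0 x := by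
    rw [Function.update_eq_self]
  rw [h1, quart2_update]
  ring

theorem quart2_update_zero {z : Fin 2 → ℤ} (h0 : quart2 (fun _ => toR z) = 0) (h : V 2) :
    quart2 (Function.update (fun _ => toR z) 0 h) = 0 := by
  rw [quart2_self] at h0
  rw [quart2_update]
  have h1 : (toR z : V 2) 0 = 0 ∨ (toR z : V 2) 1 = 0 := by
    have h2 : ((toR z : V 2) 0 * (toR z : V 2) 1) ^ 2 = 0 := by
      rw [mul_pow]
      linarith
    exact mul_eq_zero.1 (pow_eq_zero_iff (n := 2) (by norm_num) |>.1 h2)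
  rcases h1 with h1 | h1
  · rw [h1]
    ring
  · rw [h1]
    ring

/-- Numerical data of a fourfold with Picard number two. -/
noncomputable def exampleFourTwo : HyperbolicFourfoldData 2 where
  form := quart2
  symm σ x := by
    rw [quart2_apply, quart2_apply]
    refine Finset.sum_bij' (fun S _ => S.map σ.toEmbedding) (fun S _ => S.map σ.symm.toEmbedding)
      ?_ ?_ ?_ ?_ ?_
    · intro S hS
      rw [Finset.mem_filter] at hS ⊢
      exact ⟨Finset.mem_univ _, by rw [Finset.card_map]; exact hS.2⟩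
    · intro S hS
      rw [Finset.mem_filter] at hS ⊢
      exact ⟨Finset.mem_univ _, by rw [Finset.card_map]; exact hS.2⟩
    · intro S _
      ext i
      simp
    · intro S _
      ext i
      simp
    · intro S _
      rw [← Equiv.prod_comp σ fun i => (if i ∈ S.map σ.toEmbedding then x i 0 else x i 1)]
      refine Finset.prod_congr rfl fun i _ => ?_
      have h1 : σ i ∈ S.map σ.toEmbedding ↔ i ∈ S := by simp
      by_cases hi : i ∈ S
      · rw [if_pos hi, if_pos (h1.2 hi)]
      · rw [if_neg hi, if_neg fun h => hi (h1.1 h)]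
  integral z := ⟨∑ S ∈ (Finset.univ : Finset (Finset (Fin 4))).filter (fun S => S.card = 2),
      ∏ i, (if i ∈ S then z i 0 else z i 1), by
    rw [quart2_apply]
    push_cast
    rfl⟩
  amp := {x | 0 < x 0 ∧ 0 < x 1}
  amp_open := (isOpen_lt continuous_const (continuous_apply 0)).inter
    (isOpen_lt continuous_const (continuous_apply 1))
  amp_convex := (convex_pos 0).inter (convex_pos 1)
  amp_smul t ht x hx := ⟨mul_pos ht hx.1, mul_pos ht hx.2⟩
  amp_nonempty := ⟨fun _ => 1, show (0 : ℝ) < 1 from zero_lt_one,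
    show (0 : ℝ) < 1 from zero_lt_one⟩
  amp_pos x hx := by
    rw [quart2_apply]
    refine Finset.sum_pos (fun S _ => Finset.prod_pos fun i _ => ?_) ⟨{0, 1}, by decide⟩
    split_ifs
    · exact (hx i).1
    · exact (hx i).2
  salient x hx hx' := by
    have h1 := closure_amp2 hx
    have h2 : 0 ≤ (-x) 0 ∧ 0 ≤ (-x) 1 := closure_amp2 hx'
    rw [Pi.neg_apply, Pi.neg_apply] at h2
    funext i
    obtain ⟨h3, h4⟩ := h2
    obtain ⟨h5, h6⟩ := h1
    fin_cases i
    · show x 0 = 0
      linarith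
    · show x 1 = 0
      linarith
  nef_big x hx h := by
    obtain ⟨h1, h2⟩ := closure_amp2 hx
    rw [quart2_self] at h
    rcases h1.lt_or_eq with h3 | h3
    · rcases h2.lt_or_eq with h4 | h4
      · exact ⟨h3, h4⟩
      · rw [← h4] at h
        norm_num at h
    · rw [← h3] at h
      norm_num at h
  Curve := ℕ × ℕ
  genus k := 9 * ((k.1 + 1) ^ 2 * (k.2 + 1) ^ 2) + 1
  deg k := (3 * (((k.1 : ℝ) + 1) * ((k.2 : ℝ) + 1) ^ 2)) • LinearMap.proj 0 +
    (3 * (((k.1 : ℝ) + 1) ^ 2 * ((k.2 : ℝ) + 1))) • LinearMap.proj 1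
  complete_intersection := by
    refine ⟨1, one_pos, fun z hz => ?_⟩
    have hz0' : (0 : ℝ) < (z 0 : ℝ) := hz.1
    have hz1' : (0 : ℝ) < (z 1 : ℝ) := hz.2
    have hz0 : 0 < z 0 := by exact_mod_cast hz0'
    have hz1 : 0 < z 1 := by exact_mod_cast hz1'
    refine ⟨((z 0 - 1).toNat, (z 1 - 1).toNat), fun L => ?_, ?_⟩
    · rw [quart2_update]
      show (3 * (((((z 0 - 1).toNat : ℕ) : ℝ) + 1) * ((((z 1 - 1).toNat : ℕ) : ℝ) + 1) ^ 2)) * L 0 +
        (3 * (((((z 0 - 1).toNat : ℕ) : ℝ) + 1) ^ 2 * ((((z 1 - 1).toNat : ℕ) : ℝ) + 1))) * L 1 = _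
      rw [cast_pred hz0, cast_pred hz1]
      unfold toR
      push_cast
      ring
    · rw [quart2_self]
      push_cast
      rw [cast_pred hz0, cast_pred hz1]
      unfold toR
      ring
  algebraic_hyperbolicity h hh := by
    have hh0 : (0 : ℝ) < h 0 := hh.1
    have hh1 : (0 : ℝ) < h 1 := hh.2
    refine ⟨1 / (h 0 + h 1), by positivity, fun C => ?_⟩
    show 1 / (h 0 + h 1) * ((3 * (((C.1 : ℝ) + 1) * ((C.2 : ℝ) + 1) ^ 2)) * h 0 +
      (3 * (((C.1 : ℝ) + 1) ^ 2 * ((C.2 : ℝ) + 1))) * h 1) ≤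
        2 * ((9 * ((C.1 + 1) ^ 2 * (C.2 + 1) ^ 2) + 1 : ℕ) : ℝ) - 2
    push_cast
    have h2 : (0 : ℝ) ≤ (C.1 : ℝ) := Nat.cast_nonneg C.1
    have h3 : (0 : ℝ) ≤ (C.2 : ℝ) := Nat.cast_nonneg C.2
    generalize (C.1 : ℝ) = p at h2
    generalize (C.2 : ℝ) = q at h3
    have h7 : 0 ≤ (p + 1) * (q + 1) := by positivity
    have h5 : (p + 1) * (q + 1) ^ 2 ≤ (p + 1) ^ 2 * (q + 1) ^ 2 := by
      have h8 : 0 ≤ p * ((p + 1) * (q + 1) ^ 2) := by positivity
      nlinarith
    have h6 : (p + 1) ^ 2 * (q + 1) ≤ (p + 1) ^ 2 * (q + 1) ^ 2 := by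
      have h8 : 0 ≤ q * ((p + 1) ^ 2 * (q + 1)) := by positivity
      nlinarith
    have h9 : 0 ≤ (p + 1) ^ 2 * (q + 1) ^ 2 := by positivity
    rw [one_div, inv_mul_le_iff₀ (by positivity)]
    nlinarith [mul_le_mul_of_nonneg_right h5 hh0.le, mul_le_mul_of_nonneg_right h6 hh1.le,
      mul_nonneg h9 hh0.le, mul_nonneg h9 hh1.le]
  no_elliptic_fibration z hz h0 h := quart2_update_zero h0 h

end two

end Pool.Agent.Kobayashi
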