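import Pool.Agent.Lib.MP_1e3e9c_ag.Form

/-!
# Facets of the nef cone
-/

set_option autoImplicit false

namespace Pool.Agent.Kobayashi

open Set Filter Topology

section dot

variable {r : ℕ}

/-- The linear form `dot w`. -/
def dotL (w : Fin r → ℤ) : V r →ₗ[ℝ] ℝ where
  toFun := dot w
  map_add' x y := by
    simp only [dot, Pi.add_apply, mul_add, Finset.sum_add_distrib]
  map_smul' c x := by
    simp only [dot, Pi.smul_apply, smul_eq_mul, RingHom.id_apply, Finset.mul_sum]
    exact Finset.sum_congr rfl fun i _ => by ring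

theorem dot_add (w : Fin r → ℤ) (x y : V r) : dot w (x + y) = dot w x + dot w y :=
  (dotL w).map_add x y

theorem dot_sub (w : Fin r → ℤ) (x y : V r) : dot w (x - y) = dot w x - dot w y :=
  (dotL w).map_sub x y

theorem dot_smul (w : Fin r → ℤ) (c : ℝ) (x : V r) : dot w (c • x) = c * dot w x :=
  (dotL w).map_smul c x

theorem dot_zero (w : Fin r → ℤ) : dot w (0 : V r) = 0 := (dotL w).map_zero

theorem dot_neg (w : Fin r → ℤ) (x : V r) : dot w (-x) = -dot w x := (dotL w).map_neg x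

theorem neg_dot (w : Fin r → ℤ) (x : V r) : dot (-w) x = -dot w x := by
  simp only [dot, Pi.neg_apply, Int.cast_neg, neg_mul, Finset.sum_neg_distrib]

theorem dot_continuous (w : Fin r → ℤ) : Continuous (dot (r := r) w) := by
  unfold dot
  fun_prop

theorem dot_single (w : Fin r → ℤ) (i : Fin r) : dot w (Pi.single i 1) = w i := by
  unfold dot
  rw [Finset.sum_eq_single i]
  · rw [Pi.single_eq_same, mul_one]
  · intro j _ hj
    rw [Pi.single_eq_of_ne hj, mul_zero]
  · intro h
    exact absurd (Finset.mem_univ i) h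

theorem dot_toR_self {w : Fin r → ℤ} (hw : w ≠ 0) : 0 < dot w (toR w) := by
  unfold dot toR
  obtain ⟨i, hi⟩ := Function.ne_iff.1 hw
  refine Finset.sum_pos' (fun j _ => mul_self_nonneg _) ⟨i, Finset.mem_univ i, ?_⟩
  have h1 : (w i : ℝ) ≠ 0 := by exact_mod_cast hi
  exact mul_self_pos.2 h1

end dot

namespace NumData

variable {n r : ℕ} (X : NumData n r)

theorem amp_interior_closure : interior (closure X.amp) = X.amp := by
  rw [X.amp_convex.interior_closure_eq_interior_of_nonempty_interior, X.amp_open.interior_eq]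
  rw [X.amp_open.interior_eq]
  exact X.amp_nonempty

theorem mem_frontier_iff {x : V r} : x ∈ frontier X.amp ↔ x ∈ X.nef ∧ x ∉ X.amp := by
  rw [X.amp_open.frontier_eq]
  rfl

/-- `w` is the inward normal vector of a facet of the nef cone. -/
def IsFacet (w : Fin r → ℤ) : Prop :=
  w ≠ 0 ∧ (∀ a ∈ X.amp, 0 < dot w a) ∧
    ∃ D : V r, ∃ ρ : ℝ, 0 < ρ ∧ dot w D = 0 ∧ ∀ u ∈ Metric.ball D ρ, dot w u = 0 → u ∈ X.nef

/-- A positive half ball accumulates at its boundary. -/
theorem mem_closure_half {w : Fin r → ℤ} (hw : w ≠ 0) {D u : V r} {ρ : ℝ}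
    (hu : u ∈ Metric.ball D ρ) (hu0 : dot w u = 0) :
    u ∈ closure {v | v ∈ Metric.ball D ρ ∧ 0 < dot w v} := by
  have h0 : Continuous fun t : ℝ => u + t • (toR w : V r) := by fun_prop
  have h1 : Tendsto (fun t : ℝ => u + t • (toR w : V r)) (𝓝[>] 0) (𝓝 u) := by
    have := (h0.tendsto 0).mono_left (nhdsWithin_le_nhds (s := Ioi (0 : ℝ)))
    simpa using this
  refine mem_closure_of_tendsto h1 ?_
  have h2 : ∀ᶠ t in 𝓝[>] (0 : ℝ), u + t • (toR w : V r) ∈ Metric.ball D ρ :=
    h1 (Metric.isOpen_ball.mem_nhds hu)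
  filter_upwards [h2, self_mem_nhdsWithin] with t ht ht0
  refine ⟨ht, ?_⟩
  rw [dot_add, dot_smul, hu0, zero_add]
  exact mul_pos ht0 (dot_toR_self hw)

theorem isFacet_aux {w : Fin r → ℤ} (hw : w ≠ 0) {D : V r} {ρ : ℝ} (hρ : 0 < ρ)
    (hDf : D ∈ frontier X.amp) (hD : dot w D = 0)
    (hpos : ∀ u ∈ Metric.ball D ρ, 0 < dot w u → u ∈ X.amp)
    (hneg : ∀ u ∈ Metric.ball D ρ, dot w u < 0 → u ∉ X.nef) : X.IsFacet w := by
  have hDn : D ∈ X.nef := (X.mem_frontier_iff.1 hDf).1
  have key : ∀ a ∈ X.amp, 0 ≤ dot w a := by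
    intro a ha
    by_contra hcon
    push Not at hcon
    have h0 : Continuous fun t : ℝ => D + t • a := by fun_prop
    have h1 : Tendsto (fun t : ℝ => D + t • a) (𝓝[>] 0) (𝓝 D) := by
      have := (h0.tendsto 0).mono_left (nhdsWithin_le_nhds (s := Ioi (0 : ℝ)))
      simpa using this
    have h2 : ∀ᶠ t in 𝓝[>] (0 : ℝ), D + t • a ∈ Metric.ball D ρ :=
      h1 (Metric.isOpen_ball.mem_nhds (Metric.mem_ball_self hρ))
    obtain ⟨t, ht, ht0⟩ := (h2.and self_mem_nhdsWithin).exists
    have ht0' : 0 < t := ht0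
    refine hneg _ ht ?_ (X.nef_add hDn (X.nef_smul (X.amp_sub_nef ha) ht0'.le))
    rw [dot_add, dot_smul, hD, zero_add]
    exact mul_neg_of_pos_of_neg ht0' hcon
  refine ⟨hw, fun a ha => ?_, D, ρ, hρ, hD, fun u hu hu0 => ?_⟩
  · rcases (key a ha).lt_or_eq with h | h
    · exact h
    · exfalso
      have h0 : Continuous fun t : ℝ => a - t • (toR w : V r) := by fun_prop
      have h1 : Tendsto (fun t : ℝ => a - t • (toR w : V r)) (𝓝[>] 0) (𝓝 a) := by
        have := (h0.tendsto 0).mono_left (nhdsWithin_le_nhds (s := Ioi (0 : ℝ)))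
        simpa using this
      have h2 : ∀ᶠ t in 𝓝[>] (0 : ℝ), a - t • (toR w : V r) ∈ X.amp :=
        h1 (X.amp_open.mem_nhds ha)
      obtain ⟨t, ht, ht0⟩ := (h2.and self_mem_nhdsWithin).exists
      have ht0' : 0 < t := ht0
      have h3 := key _ ht
      rw [dot_sub, dot_smul, ← h] at h3
      have h4 := mul_pos ht0' (dot_toR_self hw)
      linarith
  · refine closure_mono ?_ (mem_closure_half hw hu hu0)
    exact fun v hv => hpos v hv.1 hv.2

theorem half_cases {w : Fin r → ℤ} {D : V r} {ρ : ℝ}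
    (h : ∀ u ∈ Metric.ball D ρ, u ∈ frontier X.amp → dot w u = 0) :
    (∀ u ∈ Metric.ball D ρ, 0 < dot w u → u ∈ X.amp) ∨
      (∀ u ∈ Metric.ball D ρ, 0 < dot w u → u ∉ X.nef) := by
  have hc : Convex ℝ {v : V r | v ∈ Metric.ball D ρ ∧ 0 < dot w v} := by
    have h1 : Convex ℝ {v : V r | 0 < dot w v} :=
      (convex_Ioi (0 : ℝ)).linear_preimage (dotL w)
    exact (convex_ball D ρ).inter h1
  have h2 : IsOpen (closure X.amp)ᶜ := isClosed_closure.isOpen_compl
  have h3 : Disjoint X.amp (closure X.amp)ᶜ :=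
    disjoint_compl_right.mono_left subset_closure
  have h4 : {v : V r | v ∈ Metric.ball D ρ ∧ 0 < dot w v} ⊆ X.amp ∪ (closure X.amp)ᶜ := by
    intro v hv
    by_cases h5 : v ∈ X.amp
    · exact Or.inl h5
    · right
      intro h6
      exact hv.2.ne' (h v hv.1 (X.mem_frontier_iff.2 ⟨h6, h5⟩))
  rcases hc.isPreconnected.subset_or_subset X.amp_open h2 h3 h4 with h5 | h5
  · exact Or.inl fun u hu hu0 => h5 ⟨hu, hu0⟩
  · exact Or.inr fun u hu hu0 => h5 ⟨hu, hu0⟩

theorem isFacet_of_ball {w : Fin r → ℤ} (hw : w ≠ 0) {D : V r} {ρ : ℝ} (hρ : 0 < ρ)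
    (hDf : D ∈ frontier X.amp)
    (h : ∀ u ∈ Metric.ball D ρ, u ∈ frontier X.amp → dot w u = 0) :
    X.IsFacet w ∨ X.IsFacet (-w) := by
  have hD : dot w D = 0 := h D (Metric.mem_ball_self hρ) hDf
  have hD' : dot (-w) D = 0 := by rw [neg_dot, hD, neg_zero]
  have hw' : -w ≠ 0 := neg_ne_zero.2 hw
  have h' : ∀ u ∈ Metric.ball D ρ, u ∈ frontier X.amp → dot (-w) u = 0 := by
    intro u hu huf
    rw [neg_dot, h u hu huf, neg_zero]
  rcases X.half_cases h with h1 | h1 <;> rcases X.half_cases h' with h2 | h2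
  · exfalso
    have h3 : Metric.ball D ρ ⊆ closure X.amp := by
      intro u hu
      rcases lt_trichotomy (dot w u) 0 with h4 | h4 | h4
      · exact subset_closure (h2 u hu (by rw [neg_dot]; linarith))
      · exact closure_mono (fun v hv => h1 v hv.1 hv.2) (mem_closure_half hw hu h4)
      · exact subset_closure (h1 u hu h4)
    have h4 : D ∈ interior (closure X.amp) :=
      mem_interior.2 ⟨_, h3, Metric.isOpen_ball, Metric.mem_ball_self hρ⟩
    rw [X.amp_interior_closure] at h4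
    exact (X.mem_frontier_iff.1 hDf).2 h4
  · left
    refine X.isFacet_aux hw hρ hDf hD h1 fun u hu hu0 => h2 u hu ?_
    rw [neg_dot]
    linarith
  · right
    refine X.isFacet_aux hw' hρ hDf hD' h2 fun u hu hu0 => h1 u hu ?_
    rw [neg_dot] at hu0
    linarith
  · exfalso
    obtain ⟨u, hu, hua⟩ := mem_closure_iff.1 (X.mem_frontier_iff.1 hDf).1 _
      Metric.isOpen_ball (Metric.mem_ball_self hρ)
    have h0 : dot w u = 0 := by
      rcases lt_trichotomy (dot w u) 0 with h4 | h4 | h4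
      · exact absurd (X.amp_sub_nef hua) (h2 u hu (by rw [neg_dot]; linarith))
      · exact h4
      · exact absurd (X.amp_sub_nef hua) (h1 u hu h4)
    have h3 := mem_closure_half hw hu h0
    obtain ⟨v, hv, hvm⟩ := mem_closure_iff.1 h3 _ X.amp_open hua
    exact h1 v hvm.1 hvm.2 (X.amp_sub_nef hv)

end NumData

namespace KTrivialData

variable {n r : ℕ} (X : KTrivialData n r)

theorem top_eq_zero {x : V r} (hx : x ∈ X.nef) (hx' : x ∉ X.amp) : X.top x = 0 := by
  have h1 : 0 ≤ X.top x := X.form_nonneg fun _ => hx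
  have h2 : ¬ 0 < X.top x := fun h => hx' (X.nef_big x hx h)
  linarith

/-- The line from an interior point of a facet to another point of its hyperplane. -/
theorem facet_line {w : Fin r → ℤ} {D x : V r} (hD : dot w D = 0) (hx : dot w x = 0) (t : ℝ) :
    dot w (D + t • (x - D)) = 0 := by
  rw [dot_add, dot_smul, dot_sub, hD, hx]
  ring

/-- The top self-intersection vanishes on the hyperplane of a facet. -/
theorem facet_top {w : Fin r → ℤ} (hw : X.IsFacet w) {x : V r} (hx : dot w x = 0) :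
    X.top x = 0 := by
  obtain ⟨-, hpos, D, ρ, hρ, hD, hball⟩ := hw
  have h0 : Continuous fun t : ℝ => D + t • (x - D) := by fun_prop
  have h1 : ∀ᶠ t in 𝓝 (0 : ℝ), D + t • (x - D) ∈ Metric.ball D ρ := by
    refine h0.tendsto 0 ?_
    rw [zero_smul, add_zero]
    exact Metric.ball_mem_nhds D hρ
  have h2 : ∀ᶠ t in 𝓝 (0 : ℝ), X.form (fun _ => D + t • (x - D)) = 0 := by
    filter_upwards [h1] with t ht
    have h3 := facet_line hD hx t
    refine X.top_eq_zero (hball _ ht h3) fun h4 => ?_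
    exact (hpos _ h4).ne' h3
  have h3 := multi_zero_of_near X.form h2 1
  rw [one_smul, add_sub_cancel] at h3
  exact h3

end KTrivialData

end Pool.Agent.Kobayashi
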