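import Pool.Agent.Lib.MP_1e3e9c_ag.FL.Main

/-!
# Lines on complete intersections in flag varieties

`k` is an algebraically closed field of any characteristic, `Fl` the variety of partial flags
`V_d`, `d ∈ Δ`, of `k^m` (`0 < d < m`), in its Plücker coordinates.  `X` is the common zero locus in
`Fl` of multihomogeneous polynomials `F j`, `j < c`, in the Plücker coordinates whose multidegrees
`D j` are positive in every factor; `X` may be singular.  `n = dim Fl - c`.  For `κ ∈ Δ` with the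
neighbours `lo < κ < hi` in `Δ ∪ {0, m}` the degree of `K_Fl` on a line of class `κ` is `lo - hi`.
If `∑ D j κ - (hi - lo) ≤ n - 3` then `X` contains a line of class `κ`.
-/

set_option autoImplicit false

namespace Pool.Agent.Results.MP_1e3e9c_ag.FlagIntersections

open Pool.Agent.Lib.MP_1e3e9c_ag.FL

/-- **Theorem.** -/
theorem result {k : Type} [Field k] [IsAlgClosed k] (m : ℕ) (Δ : Finset ℕ)
    (hΔ : ∀ d ∈ Δ, 0 < d ∧ d < m) (c : ℕ) (D : Fin c → Δ → ℕ) (hD : ∀ j d, 0 < D j d)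
    (F : Fin c → MvPolynomial (PIdx m Δ) k)
    (hF : ∀ j, (F j).IsWeightedHomogeneous (pdeg m Δ) (D j))
    (κ : Δ) (lo hi : ℕ)
    (hlo : (lo = 0 ∨ lo ∈ Δ) ∧ lo < κ ∧ ∀ d ∈ Δ, lo < d → κ ≤ d)
    (hhi : (hi = m ∨ hi ∈ Δ) ∧ κ < hi ∧ ∀ d ∈ Δ, κ < d → hi ≤ d)
    (hK : (∑ j, (D j κ : ℤ)) - ((hi : ℤ) - lo) ≤ ((dimFl m Δ : ℤ) - c) - 3) :
    ∃ u : ℕ → Fin m → k, LinearIndependent k (fun i : Fin m => u i) ∧
      ∀ j, ∀ s t : k, MvPolynomial.eval (linePt Δ u κ s t) (F j) = 0 := by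
  obtain ⟨hlo0, hlo1, hlo2⟩ := hlo
  obtain ⟨hm0, hhi1, hhi2⟩ := hhi
  have hm : hi ≤ m := by
    rcases hm0 with h | h
    · exact h.le
    · exact (hΔ hi h).2.le
  have hle : lo ≤ hi := hlo1.le.trans hhi1.le
  have hcount : (∑ j, D j ⟨(κ : ℕ), κ.2⟩) + c + 3 ≤ (hi - lo) + dimFl m Δ := by
    have h1 : (((∑ j, D j κ) + c + 3 : ℕ) : ℤ) ≤ (((hi - lo) + dimFl m Δ : ℕ) : ℤ) := by
      push_cast [Nat.cast_sub hle]
      linarith
    exact_mod_cast h1
  exact exists_line hΔ κ.2 hlo1 hlo0 hlo2 hhi1 hhi2 hm hm0 c D hD F hF hcount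

end Pool.Agent.Results.MP_1e3e9c_ag.FlagIntersections
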