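import Pool.Agent.Lib.MP_1e3e9c_ag.Defs

/-!
# Intersection forms: continuity, monotonicity on the nef cone, restriction to lines
-/

set_option autoImplicit false

namespace Pool.Agent.Kobayashi

open Set Filter Topology

section multi

variable {n r : ℕ} (f : MultilinearMap ℝ (fun _ : Fin n => V r) ℝ)

theorem multi_expand (x : Fin n → V r) :
    f x = ∑ g : Fin n → Fin r, (∏ i, x i (g i)) * f (fun i => Pi.single (g i) 1) := by
  have h1 : x = fun i => ∑ j, x i j • (Pi.single j 1 : V r) := by
    funext i
    exact pi_eq_sum_univ' (x i)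
  conv_lhs => rw [h1]
  rw [MultilinearMap.map_sum]
  refine Finset.sum_congr rfl fun g _ => ?_
  rw [MultilinearMap.map_smul_univ]
  rfl

theorem multi_continuous : Continuous f := by
  have h : (f : (Fin n → V r) → ℝ) = fun x => ∑ g : Fin n → Fin r,
      (∏ i, x i (g i)) * f (fun i => Pi.single (g i) 1) := funext fun x => multi_expand f x
  rw [h]
  refine continuous_finsetSum _ fun g _ => ?_
  refine (continuous_finsetProd _ fun i _ => ?_).mul continuous_const
  exact (continuous_apply (g i)).comp (continuous_apply i)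

/-- Restriction of a form to a line, as a polynomial. -/
noncomputable def linePoly (a b : V r) : Polynomial ℝ :=
  ∑ s : Finset (Fin n), Polynomial.C (f (s.piecewise (fun _ => a) (fun _ => b))) *
    Polynomial.X ^ (sᶜ).card

theorem linePoly_eval (a b : V r) (t : ℝ) :
    (linePoly f a b).eval t = f (fun _ => a + t • b) := by
  unfold linePoly
  rw [Polynomial.eval_finsetSum]
  have h1 : (fun _ : Fin n => a + t • b) = (fun _ => a) + (fun _ => t • b) := rfl
  rw [h1, MultilinearMap.map_add_univ]
  refine Finset.sum_congr rfl fun s _ => ?_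
  rw [Polynomial.eval_mul, Polynomial.eval_C, Polynomial.eval_pow, Polynomial.eval_X]
  have h2 : s.piecewise (fun _ : Fin n => a) (fun _ => t • b) =
      (sᶜ).piecewise (fun i => t • (s.piecewise (fun _ : Fin n => a) (fun _ => b)) i)
        (s.piecewise (fun _ : Fin n => a) (fun _ => b)) := by
    funext i
    by_cases hi : i ∈ s
    · rw [Finset.piecewise_eq_of_mem _ _ _ hi, Finset.piecewise_eq_of_notMem _ _ _ (by simpa using hi),
        Finset.piecewise_eq_of_mem _ _ _ hi]
    · rw [Finset.piecewise_eq_of_notMem _ _ _ hi, Finset.piecewise_eq_of_mem _ _ _ (by simpa using hi),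
        Finset.piecewise_eq_of_notMem _ _ _ hi]
  rw [h2, MultilinearMap.map_piecewise_smul, Finset.prod_const, smul_eq_mul, mul_comm]

theorem linePoly_natDegree (a b : V r) : (linePoly f a b).natDegree ≤ n := by
  unfold linePoly
  refine Polynomial.natDegree_sum_le_of_forall_le _ _ fun s _ => ?_
  refine (Polynomial.natDegree_C_mul_X_pow_le _ _).trans ?_
  exact (Finset.card_le_univ _).trans (by simp)

/-- A form which vanishes near a point of a line vanishes on the line. -/
theorem multi_zero_of_near {a b : V r} (h : ∀ᶠ t in 𝓝 (0 : ℝ), f (fun _ => a + t • b) = 0) (t : ℝ) :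
    f (fun _ => a + t • b) = 0 := by
  have h1 : linePoly f a b = 0 := by
    refine Polynomial.eq_zero_of_infinite_isRoot _ ?_
    obtain ⟨ε, hε, hb⟩ := Metric.eventually_nhds_iff.1 h
    refine Set.Infinite.mono ?_ (Set.Ioo_infinite hε)
    intro s hs
    show (linePoly f a b).eval s = 0
    rw [linePoly_eval]
    refine hb ?_
    rw [Real.dist_eq, sub_zero, abs_of_pos hs.1]
    exact hs.2
  rw [← linePoly_eval, h1, Polynomial.eval_zero]

end multi

namespace NumData

variable {n r : ℕ} (X : NumData n r)

theorem amp_add {x y : V r} (hx : x ∈ X.amp) (hy : y ∈ X.amp) : x + y ∈ X.amp := by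
  have h1 : (1 / 2 : ℝ) • x + (1 / 2 : ℝ) • y ∈ X.amp :=
    X.amp_convex hx hy (by norm_num) (by norm_num) (by norm_num)
  have h2 := X.amp_smul 2 (by norm_num) _ h1
  have h3 : (2 : ℝ) • ((1 / 2 : ℝ) • x + (1 / 2 : ℝ) • y) = x + y := by
    rw [smul_add, smul_smul, smul_smul]
    norm_num
  rwa [h3] at h2

theorem amp_sub_nef {x : V r} (hx : x ∈ X.amp) : x ∈ X.nef := subset_closure hx

theorem nef_add {x y : V r} (hx : x ∈ X.nef) (hy : y ∈ X.nef) : x + y ∈ X.nef :=
  map_mem_closure₂ continuous_add hx hy fun _ ha _ hb => X.amp_add ha hb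

theorem amp_add_nef {x y : V r} (hx : x ∈ X.amp) (hy : y ∈ X.nef) : x + y ∈ X.amp := by
  have h1 : IsOpen {u : V r | x + y - u ∈ X.amp} :=
    X.amp_open.preimage (continuous_const.sub continuous_id)
  obtain ⟨u, hu1, hu2⟩ := mem_closure_iff.1 hy _ h1 (by
    show x + y - y ∈ X.amp
    rwa [add_sub_cancel_right])
  have h2 := X.amp_add hu1 hu2
  rwa [sub_add_cancel] at h2

theorem zero_mem_nef : (0 : V r) ∈ X.nef := by
  obtain ⟨x, hx⟩ := X.amp_nonempty
  have h0 : Continuous fun t : ℝ => t • x := continuous_id'.smul continuous_const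
  have h1 : Tendsto (fun t : ℝ => t • x) (𝓝[>] 0) (𝓝 ((0 : ℝ) • x)) :=
    (h0.tendsto 0).mono_left nhdsWithin_le_nhds
  rw [zero_smul] at h1
  exact mem_closure_of_tendsto h1 (eventually_nhdsWithin_of_forall fun t ht => X.amp_smul t ht x hx)

theorem nef_smul {x : V r} (hx : x ∈ X.nef) {t : ℝ} (ht : 0 ≤ t) : t • x ∈ X.nef := by
  rcases ht.lt_or_eq with h | h
  · exact map_mem_closure (continuous_const_smul t) hx fun y hy => X.amp_smul t h y hy
  · rw [← h, zero_smul]
    exact X.zero_mem_nef

theorem form_nonneg {x : Fin n → V r} (hx : ∀ i, x i ∈ X.nef) : 0 ≤ X.form x := by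
  have h1 : IsClosed {y : Fin n → V r | 0 ≤ X.form y} :=
    isClosed_le continuous_const (multi_continuous X.form)
  have h2 : Set.pi univ (fun _ : Fin n => X.amp) ⊆ {y : Fin n → V r | 0 ≤ X.form y} :=
    fun y hy => (X.amp_pos y fun i => hy i (mem_univ i)).le
  have h3 : x ∈ closure (Set.pi univ (fun _ : Fin n => X.amp)) := by
    rw [closure_pi_set]
    exact fun i _ => hx i
  exact h1.closure_subset_iff.2 h2 h3

theorem form_mono {a b : Fin n → V r} (ha : ∀ i, a i ∈ X.nef) (hb : ∀ i, b i - a i ∈ X.nef) :
    X.form a ≤ X.form b := by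
  have h1 : b = a + (b - a) := by abel
  have h2 : X.form b = ∑ s : Finset (Fin n), X.form (s.piecewise a (b - a)) := by
    conv_lhs => rw [h1]
    rw [MultilinearMap.map_add_univ]
  have h3 : ∀ s ∈ (Finset.univ : Finset (Finset (Fin n))), 0 ≤ X.form (s.piecewise a (b - a)) := by
    intro s _
    refine X.form_nonneg fun i => ?_
    by_cases hi : i ∈ s
    · rw [Finset.piecewise_eq_of_mem _ _ _ hi]
      exact ha i
    · rw [Finset.piecewise_eq_of_notMem _ _ _ hi]
      exact hb i
  have h4 := Finset.single_le_sum h3 (Finset.mem_univ (Finset.univ : Finset (Fin n)))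
  rw [h2]
  refine le_trans (le_of_eq ?_) h4
  congr 1
  rw [Finset.piecewise_univ]

theorem mix_eq (i j : Fin n) (h x : V r) : X.mix i h x = X.mix j h x := by
  unfold mix
  rw [← X.symm (Equiv.swap i j) (Function.update (fun _ => x) i h)]
  congr 1
  funext k
  by_cases hk : k = j
  · subst hk
    rw [Equiv.swap_apply_right, Function.update_self, Function.update_self]
  · rw [Function.update_of_ne hk]
    rw [Function.update_of_ne]
    intro h1
    apply hk
    rw [← Equiv.swap_apply_left i j]
    exact ((Equiv.swap_apply_eq_iff).1 h1)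

theorem mix_pos (i : Fin n) {h x : V r} (hh : h ∈ X.amp) (hx : x ∈ X.amp) : 0 < X.mix i h x := by
  refine X.amp_pos _ fun j => ?_
  by_cases hj : j = i
  · subst hj
    rw [Function.update_self]
    exact hh
  · rw [Function.update_of_ne hj]
    exact hx

theorem mix_smul (i : Fin n) (c : ℝ) (h x : V r) : X.mix i (c • h) x = c * X.mix i h x := by
  unfold mix
  rw [MultilinearMap.map_update_smul, smul_eq_mul]

theorem top_smul (c : ℝ) (x : V r) : X.top (c • x) = c ^ n * X.top x := by
  unfold top
  have := X.form.map_smul_univ (fun _ => c) (fun _ => x)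
  rw [this, Finset.prod_const, Finset.card_univ, Fintype.card_fin, smul_eq_mul]

/-- The main estimate: the top self-intersection of a class near the ray of `D`, `D^n = 0`. -/
theorem top_le {D e h : V r} {t δ : ℝ} (hD : D ∈ X.nef) (hD0 : X.top D = 0) (ht : 0 ≤ t)
    (hδ : 0 ≤ δ) (he : e ∈ X.nef) (hh : h ∈ X.nef) (heh : δ • h - e ∈ X.nef) (i : Fin n) :
    X.top (t • D + e) ≤ 2 ^ n * (δ * X.mix i h (t • D + e)) := by
  set x := t • D + e with hx
  have htD : t • D ∈ X.nef := X.nef_smul hD ht
  have hxn : x ∈ X.nef := X.nef_add htD he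
  have hB : 0 ≤ δ * X.mix i h x := by
    refine mul_nonneg hδ (X.form_nonneg fun j => ?_)
    by_cases hj : j = i
    · subst hj
      rw [Function.update_self]
      exact hh
    · rw [Function.update_of_ne hj]
      exact hxn
  have h1 : X.top x = ∑ s : Finset (Fin n), X.form (s.piecewise (fun _ => t • D) (fun _ => e)) := by
    unfold top
    have : (fun _ : Fin n => x) = (fun _ => t • D) + (fun _ => e) := rfl
    rw [this, MultilinearMap.map_add_univ]
  have h2 : ∀ s ∈ (Finset.univ : Finset (Finset (Fin n))),
      X.form (s.piecewise (fun _ => t • D) (fun _ => e)) ≤ δ * X.mix i h x := by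
    intro s _
    by_cases hs : s = Finset.univ
    · subst hs
      rw [Finset.piecewise_univ]
      have : X.form (fun _ => t • D) = 0 := by
        have := X.top_smul t D
        rw [hD0, mul_zero] at this
        exact this
      rw [this]
      exact hB
    · obtain ⟨j, hj⟩ : ∃ j, j ∉ s := by
        by_contra hcon
        push Not at hcon
        exact hs (Finset.eq_univ_iff_forall.2 hcon)
      rw [X.mix_eq i j, ← X.mix_smul]
      refine X.form_mono (fun k => ?_) (fun k => ?_)
      · by_cases hk : k ∈ s
        · rw [Finset.piecewise_eq_of_mem _ _ _ hk]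
          exact htD
        · rw [Finset.piecewise_eq_of_notMem _ _ _ hk]
          exact he
      · by_cases hkj : k = j
        · subst hkj
          rw [Function.update_self, Finset.piecewise_eq_of_notMem _ _ _ hj]
          exact heh
        · rw [Function.update_of_ne hkj]
          by_cases hk : k ∈ s
          · rw [Finset.piecewise_eq_of_mem _ _ _ hk, hx, add_sub_cancel_left]
            exact he
          · rw [Finset.piecewise_eq_of_notMem _ _ _ hk, hx, add_sub_cancel_right]
            exact htD
  rw [h1]
  refine (Finset.sum_le_sum h2).trans (le_of_eq ?_)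
  rw [Finset.sum_const, Finset.card_univ, Fintype.card_finset, Fintype.card_fin, nsmul_eq_mul]
  push_cast
  ring

end NumData

end Pool.Agent.Kobayashi
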