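import Pool.Agent.Lib.MP_1e3e9c_ag.Threefold

/-!
# Fourfolds
-/

set_option autoImplicit false

namespace Pool.Agent.Kobayashi

open Set Filter Topology

/-- Numerical data of a Kobayashi hyperbolic fourfold with numerically trivial canonical class. -/
structure HyperbolicFourfoldData (r : ℕ) extends KTrivialData 4 r where
  /-- The irreducible curves on `X`. -/
  Curve : Type
  /-- The genus of the normalisation. -/
  genus : Curve → ℕ
  /-- The degree of a divisor class on a curve. -/
  deg : Curve → V r →ₗ[ℝ] ℝ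
  /-- Some multiple `k z` of every integral ample class `z` is base point free, with `k`
  independent of `z`; the intersection of three general members of `|k z|` is a smooth irreducible
  curve, with canonical class `3 k z`. -/
  complete_intersection : ∃ k : ℕ, 0 < k ∧ ∀ z : Fin r → ℤ, toR z ∈ amp → ∃ C : Curve,
    (∀ L : V r, deg C L = (k : ℝ) ^ 3 * form (Function.update (fun _ => toR z) 0 L)) ∧
      2 * (genus C : ℝ) - 2 = 3 * (k : ℝ) ^ 4 * form (fun _ => toR z)
  /-- Algebraic hyperbolicity. -/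
  algebraic_hyperbolicity : ∀ h ∈ amp, ∃ ε : ℝ, 0 < ε ∧
    ∀ C : Curve, ε * deg C h ≤ 2 * (genus C : ℝ) - 2
  /-- There is no nef integral class `z` with `z^4 = 0` and `z^3 ≠ 0`: it would define a fibration
  in elliptic curves. -/
  no_elliptic_fibration : ∀ z : Fin r → ℤ, toR z ∈ closure amp → form (fun _ => toR z) = 0 →
    ∀ h : V r, form (Function.update (fun _ => toR z) 0 h) = 0

/-- The data of a hyperbolic fourfold are data of a hyperbolic variety (the part of the second
Chern class is played by the square of an ample class). -/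
noncomputable def HyperbolicFourfoldData.toHyp {r : ℕ} (X : HyperbolicFourfoldData r) :
    HyperbolicData 2 r where
  toKTrivialData := X.toKTrivialData
  Curve := X.Curve
  genus := X.genus
  deg := X.deg
  complete_intersection := by
    obtain ⟨k, hk, h⟩ := X.complete_intersection
    refine ⟨k, hk, fun z hz => ?_⟩
    obtain ⟨C, hC1, hC2⟩ := h z hz
    refine ⟨C, fun L => ?_, ?_⟩
    · rw [hC1 L]
    · rw [hC2]
      norm_num
  algebraic_hyperbolicity := X.algebraic_hyperbolicity
  c2 := (X.form.curryLeft X.amp_nonempty.some).curryLeft X.amp_nonempty.some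
  c2_pos x hx := by
    rw [MultilinearMap.curryLeft_apply, MultilinearMap.curryLeft_apply]
    refine X.amp_pos _ fun i => ?_
    refine Fin.cases ?_ (fun j => ?_) i
    · exact X.amp_nonempty.some_mem
    · rw [Fin.cons_succ]
      refine Fin.cases ?_ (fun l => ?_) j
      · exact X.amp_nonempty.some_mem
      · rw [Fin.cons_succ]
        exact hx l
  no_elliptic_fibration z hz h0 := by
    rintro ⟨h, hh⟩
    exact absurd (X.no_elliptic_fibration z hz h0 h) hh

namespace HyperbolicFourfoldData

variable {r : ℕ} (X : HyperbolicFourfoldData r)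

/-- The classes `D^3` vanish on the hyperplane of a facet. -/
theorem facet_cube {w : Fin r → ℤ} (hw : X.IsFacet w) :
    ∀ x, dot w x = 0 → ∀ i h, X.form (Function.update (fun _ => x) i h) = 0 := by
  by_contra hcon
  push Not at hcon
  obtain ⟨x₁, hx₁, i, h, h1⟩ := hcon
  have h1' : X.form.curryLeft h (fun _ => x₁) ≠ 0 := by
    rw [MultilinearMap.curryLeft_apply, cons_eq_update]
    have := X.mix_eq i 0 h x₁
    unfold NumData.mix at this
    rw [← this]
    exact h1
  have hwf := hw
  obtain ⟨hw0, hpos, D, ρ, hρ, hD, hball⟩ := hw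
  obtain ⟨t, htb, ht⟩ := exists_ne_zero_near (X.form.curryLeft h) h1' (W := Metric.ball D ρ)
    Metric.isOpen_ball (Metric.mem_ball_self hρ)
  set D' := D + t • (x₁ - D) with hD'
  have hD'w : dot w D' = 0 := KTrivialData.facet_line hD hx₁ t
  have hc1 : Continuous fun u : V r => X.form.curryLeft h (fun _ => u) :=
    (multi_continuous (X.form.curryLeft h)).comp (continuous_pi fun _ => continuous_id)
  have hW1 : IsOpen (Metric.ball D ρ ∩ {u : V r | X.form.curryLeft h (fun _ => u) ≠ 0}) :=
    Metric.isOpen_ball.inter (isOpen_ne_fun hc1 continuous_const)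
  obtain ⟨N, z, hN, hzw, hzW⟩ := exists_rational hw0 hD'w hW1 ⟨htb, ht⟩
  have hN0 : (0 : ℝ) < N := by exact_mod_cast hN
  set y : V r := (N : ℝ)⁻¹ • (toR z : V r) with hy
  have hyz : (N : ℝ) • y = toR z := by
    rw [hy, smul_smul, mul_inv_cancel₀ hN0.ne', one_smul]
  have hyw : dot w y = 0 := by rw [hy, dot_smul, hzw, mul_zero]
  have hyn : y ∈ X.nef := hball y hzW.1 hyw
  have hzn : toR z ∈ X.nef := by
    rw [← hyz]
    exact X.nef_smul hyn hN0.le
  have hztop : X.form (fun _ => toR z) = 0 := X.facet_top hwf hzw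
  have hzmix : X.form (Function.update (fun _ => toR z) 0 h) ≠ 0 := by
    rw [← cons_eq_update, ← MultilinearMap.curryLeft_apply, ← hyz]
    have h3 := (X.form.curryLeft h).map_smul_univ (fun _ => (N : ℝ)) (fun _ => y)
    rw [h3, Finset.prod_const, smul_eq_mul]
    exact mul_ne_zero (pow_ne_zero _ hN0.ne') hzW.2
  exact hzmix (X.no_elliptic_fibration z hzn hztop h)

theorem cube_of_facet {a : V r} (ha : a ∈ X.amp) {φ : Module.Dual ℝ (V r)}
    (hφ : φ ∈ X.facets a) :
    ∀ x, φ x = 0 → ∀ i h, X.form (Function.update (fun _ => x) i h) = 0 := by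
  obtain ⟨w, hw, rfl⟩ := hφ
  exact fun x hx => X.facet_cube hw x ((X.nrm_eq_zero_iff ha hw).1 hx)

theorem facets_card_two {a : V r} (ha : a ∈ X.amp) : (X.facets a).ncard ≤ 2 := by
  classical
  obtain ⟨hfin, -⟩ := X.facets_finite ha
  rw [Set.ncard_eq_toFinset_card _ hfin]
  set T := hfin.toFinset with hTdef
  have hT : (↑T : Set (Module.Dual ℝ (V r))) ⊆ X.facets a := by simp [hTdef]
  have h1 := X.card_add_card_le ha T T hT subset_rfl (fun φ hφ => X.cube_of_facet ha (hT hφ))
  omega

end HyperbolicFourfoldData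

/-- Expansion of a quartic form at a sum of two classes whose cubes vanish. -/
theorem quartic_two {r : ℕ} (f : MultilinearMap ℝ (fun _ : Fin 4 => V r) ℝ) {D E : V r}
    (hD0 : f (fun _ => D) = 0) (hE0 : f (fun _ => E) = 0)
    (hD : ∀ i, f (Function.update (fun _ => D) i E) = 0)
    (hE : ∀ i, f (Function.update (fun _ => E) i D) = 0) :
    ∃ c : ℝ, ∀ s t : ℝ, f (fun _ => s • D + t • E) = c * s ^ 2 * t ^ 2 := by
  classical
  refine ⟨∑ S ∈ (Finset.univ : Finset (Finset (Fin 4))).filter (fun S => S.card = 2),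
    f (S.piecewise (fun _ => D) (fun _ => E)), fun s t => ?_⟩
  have h0 : (fun _ : Fin 4 => s • D + t • E) = (fun _ => s • D) + (fun _ => t • E) := rfl
  rw [h0, MultilinearMap.map_add_univ, Finset.sum_mul, Finset.sum_mul, Finset.sum_filter]
  refine Finset.sum_congr rfl fun S _ => ?_
  have h1 : S.piecewise (fun _ : Fin 4 => s • D) (fun _ => t • E) =
      fun i => (if i ∈ S then s else t) • (S.piecewise (fun _ : Fin 4 => D) (fun _ => E)) i := by
    funext i
    by_cases hi : i ∈ S
    · rw [Finset.piecewise_eq_of_mem _ _ _ hi, Finset.piecewise_eq_of_mem _ _ _ hi, if_pos hi]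
    · rw [Finset.piecewise_eq_of_notMem _ _ _ hi, Finset.piecewise_eq_of_notMem _ _ _ hi,
        if_neg hi]
  rw [h1, MultilinearMap.map_smul_univ, smul_eq_mul]
  have h2 : ∏ i : Fin 4, (if i ∈ S then s else t) = s ^ S.card * t ^ (Sᶜ).card := by
    rw [Finset.prod_ite, Finset.prod_const, Finset.prod_const]
    congr 3
    · ext i
      simp
    · ext i
      simp
  rw [h2]
  have hcard : S.card + (Sᶜ).card = 4 := by
    rw [Finset.card_add_card_compl, Fintype.card_fin]
  by_cases h3 : S.card = 2
  · have h4 : (Sᶜ).card = 2 := by omega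
    rw [if_pos h3, h3, h4]
    ring
  · rw [if_neg h3]
    have h5 : f (S.piecewise (fun _ => D) (fun _ => E)) = 0 := by
      have h6 : S.card = 0 ∨ S.card = 1 ∨ (Sᶜ).card = 1 ∨ (Sᶜ).card = 0 := by omega
      rcases h6 with h6 | h6 | h6 | h6
      · rw [Finset.card_eq_zero] at h6
        rw [h6, Finset.piecewise_empty]
        exact hE0
      · obtain ⟨i, hi⟩ := Finset.card_eq_one.1 h6
        have h7 : S.piecewise (fun _ : Fin 4 => D) (fun _ => E) = Function.update (fun _ => E) i D := by
          funext j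
          by_cases hj : j = i
          · subst hj
            rw [Function.update_self, Finset.piecewise_eq_of_mem]
            rw [hi, Finset.mem_singleton]
          · rw [Function.update_of_ne hj, Finset.piecewise_eq_of_notMem]
            rw [hi, Finset.mem_singleton]
            exact hj
        rw [h7]
        exact hE i
      · obtain ⟨i, hi⟩ := Finset.card_eq_one.1 h6
        have h7 : S.piecewise (fun _ : Fin 4 => D) (fun _ => E) = Function.update (fun _ => D) i E := by
          funext j
          by_cases hj : j = i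
          · subst hj
            rw [Function.update_self, Finset.piecewise_eq_of_notMem]
            rw [← Finset.mem_compl, hi, Finset.mem_singleton]
          · rw [Function.update_of_ne hj, Finset.piecewise_eq_of_mem]
            by_contra hcon
            rw [← Finset.mem_compl, hi, Finset.mem_singleton] at hcon
            exact hj hcon
        rw [h7]
        exact hD i
      · rw [Finset.card_eq_zero, Finset.compl_eq_empty_iff] at h6
        rw [h6, Finset.piecewise_univ]
        exact hD0
    rw [h5, mul_zero]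

namespace HyperbolicFourfoldData

/-- The two facets of the nef cone of a hyperbolic fourfold of Picard number two. -/
theorem two_facets (X : HyperbolicFourfoldData 2) :
    ∃ u v : Fin 2 → ℤ, X.IsFacet u ∧ X.IsFacet v ∧ X.nef = {x | 0 ≤ dot u x ∧ 0 ≤ dot v x} := by
  classical
  obtain ⟨a, ha⟩ := X.amp_nonempty
  obtain ⟨hfin, -⟩ := X.facets_finite ha
  have hk := X.facets_card_two ha
  obtain ⟨h1, w, hw, hinj, hnef⟩ := X.exists_normals ha hfin (fun D hD => X.toHyp.rel hD)
  have hk2 : (X.facets a).ncard = 2 := by omega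
  generalize (X.facets a).ncard = k at hk2 w hw hinj hnef
  subst hk2
  refine ⟨w 0, w 1, hw 0, hw 1, ?_⟩
  rw [hnef]
  ext x
  exact Fin.forall_fin_two

/-- Hyperbolic fourfolds of Picard number two look like the product of two surfaces of Picard
number one. -/
theorem picard_two (X : HyperbolicFourfoldData 2) :
    ∃ (D E : Fin 2 → ℤ) (c : ℝ), 0 < c ∧
      X.nef = {x | ∃ s t : ℝ, 0 ≤ s ∧ 0 ≤ t ∧ x = s • toR D + t • toR E} ∧
      ∀ s t : ℝ, X.top (s • toR D + t • toR E) = c * s ^ 2 * t ^ 2 := by
  obtain ⟨u, v, hu, hv, hnef⟩ := X.two_facets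
  have hdet : u 0 * v 1 - u 1 * v 0 ≠ 0 := by
    intro h
    have h1 : dot u (toR (rot u)) = 0 := by
      rw [dot_rot]
      ring
    have h2 : dot v (toR (rot u)) = 0 := by
      rw [dot_rot]
      have : ((u 0 * v 1 - u 1 * v 0 : ℤ) : ℝ) = 0 := by exact_mod_cast h
      push_cast at this
      linarith
    have h3 : toR (rot u) = 0 := by
      refine X.salient _ ?_ ?_
      · show toR (rot u) ∈ X.nef
        rw [hnef]
        exact ⟨h1.ge, h2.ge⟩
      · show -toR (rot u) ∈ X.nef
        rw [hnef]
        refine ⟨?_, ?_⟩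
        · rw [dot_neg, h1, neg_zero]
        · rw [dot_neg, h2, neg_zero]
    refine hu.1 ?_
    have h4 : ((u 1 : ℤ) : ℝ) = 0 := congrFun h3 0
    have h5 : ((-u 0 : ℤ) : ℝ) = 0 := congrFun h3 1
    funext i
    fin_cases i
    · show u 0 = 0
      have : -u 0 = 0 := by exact_mod_cast h5
      omega
    · show u 1 = 0
      exact_mod_cast h4
  set σ : ℤ := (u 0 * v 1 - u 1 * v 0).sign with hσ
  have hσd : (σ : ℝ) * ((u 0 : ℝ) * v 1 - u 1 * v 0) = |((u 0 * v 1 - u 1 * v 0 : ℤ) : ℝ)| := by
    rw [← Int.cast_abs, ← Int.sign_mul_self_eq_abs (u 0 * v 1 - u 1 * v 0), ← hσ]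
    push_cast
    ring
  have hd0 : 0 < |((u 0 * v 1 - u 1 * v 0 : ℤ) : ℝ)| := abs_pos.2 (by exact_mod_cast hdet)
  set d : ℝ := |((u 0 * v 1 - u 1 * v 0 : ℤ) : ℝ)| with hd
  set D : Fin 2 → ℤ := (-σ) • rot u with hD
  set E : Fin 2 → ℤ := σ • rot v with hE
  have huD : dot u (toR D) = 0 := by
    rw [hD, toR_smul, dot_smul, dot_rot]
    ring
  have hvD : dot v (toR D) = d := by
    rw [hD, toR_smul, dot_smul, dot_rot, ← hσd]
    push_cast
    ring
  have hvE : dot v (toR E) = 0 := by
    rw [hE, toR_smul, dot_smul, dot_rot]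
    ring
  have huE : dot u (toR E) = d := by
    rw [hE, toR_smul, dot_smul, dot_rot, ← hσd]
  have hzero : ∀ x : V 2, dot u x = 0 → dot v x = 0 → x = 0 := by
    intro x h1 h2
    refine X.salient _ ?_ ?_
    · show x ∈ X.nef
      rw [hnef]
      exact ⟨h1.ge, h2.ge⟩
    · show -x ∈ X.nef
      rw [hnef]
      refine ⟨?_, ?_⟩
      · rw [dot_neg, h1, neg_zero]
      · rw [dot_neg, h2, neg_zero]
  have hdec : ∀ x : V 2, x = (dot v x / d) • toR D + (dot u x / d) • toR E := by
    intro x
    rw [← sub_eq_zero]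
    refine hzero _ ?_ ?_
    · rw [dot_sub, dot_add, dot_smul, dot_smul, huD, huE]
      field_simp
      ring
    · rw [dot_sub, dot_add, dot_smul, dot_smul, hvD, hvE]
      field_simp
      ring
  have hDn : toR D ∈ X.nef := by
    rw [hnef]
    exact ⟨huD.ge, by rw [hvD]; exact hd0.le⟩
  have hEn : toR E ∈ X.nef := by
    rw [hnef]
    exact ⟨by rw [huE]; exact hd0.le, hvE.ge⟩
  obtain ⟨c, hc⟩ := quartic_two X.form (D := toR D) (E := toR E) (X.facet_top hu huD)
    (X.facet_top hv hvE) (fun i => X.facet_cube hu _ huD i _) (fun i => X.facet_cube hv _ hvE i _)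
  have hcpos : 0 < c := by
    obtain ⟨a, ha⟩ := X.amp_nonempty
    have h1 := X.amp_pos (fun _ => a) (fun _ => ha)
    have h2 := hdec a
    have h3 : X.form (fun _ => a) = c * (dot v a / d) ^ 2 * (dot u a / d) ^ 2 := by
      rw [← hc]
      exact congrArg X.form (funext fun _ => h2)
    rw [h3, mul_assoc] at h1
    have h4 : 0 ≤ (dot v a / d) ^ 2 * (dot u a / d) ^ 2 := by positivity
    exact pos_of_mul_pos_left h1 h4
  refine ⟨D, E, c, hcpos, ?_, hc⟩
  ext x
  constructor
  · intro hx
    have hx' := hx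
    rw [hnef] at hx'
    exact ⟨_, _, div_nonneg hx'.2 hd0.le, div_nonneg hx'.1 hd0.le, hdec x⟩
  · rintro ⟨s, t, hs, ht, rfl⟩
    exact X.nef_add (X.nef_smul hDn hs) (X.nef_smul hEn ht)

/-- Hyperbolic fourfolds with trivial canonical class. -/
theorem classification {r : ℕ} (X : HyperbolicFourfoldData r) :
    r = 1 ∨ (r = 2 ∧ ∃ (D E : Fin r → ℤ) (c : ℝ), 0 < c ∧
      X.nef = {x | ∃ s t : ℝ, 0 ≤ s ∧ 0 ≤ t ∧ x = s • toR D + t • toR E} ∧
      ∀ s t : ℝ, X.top (s • toR D + t • toR E) = c * s ^ 2 * t ^ 2) := by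
  have h1 := X.toHyp.r_pos
  obtain ⟨a, ha⟩ := X.amp_nonempty
  obtain ⟨hfin, -⟩ := X.facets_finite ha
  have hk := X.facets_card_two ha
  obtain ⟨h3, -⟩ := X.exists_normals ha hfin (fun D hD => X.toHyp.rel hD)
  have h2 : r = 1 ∨ r = 2 := by omega
  rcases h2 with h2 | h2
  · exact Or.inl h2
  · right
    subst h2
    exact ⟨rfl, X.picard_two⟩

end HyperbolicFourfoldData

end Pool.Agent.Kobayashi
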