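import Pool.Agent.Lib.MP_1e3e9c_ag.ExamplesFour

/-!
# Hyperbolic fourfolds with trivial canonical class have Picard number at most two

`HyperbolicFourfoldData r` holds the numerical data of a Kobayashi hyperbolic smooth projective
fourfold of Picard number `r` with numerically trivial canonical class. Such data exist exactly
for `r = 1` and `r = 2`, and for `r = 2` the nef cone is generated by two integral classes `D`, `E`
and `(s D + t E)^4 = c s^2 t^2`, as for a product of two surfaces of Picard number one.
-/

set_option autoImplicit false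

namespace Pool.Agent.Results.MP_1e3e9c_ag.FourfoldPicardTwo

open Pool.Agent.Kobayashi

theorem result (r : ℕ) :
    (Nonempty (HyperbolicFourfoldData r) ↔ r = 1 ∨ r = 2) ∧
    ∀ X : HyperbolicFourfoldData r, r = 2 →
      ∃ (D E : Fin r → ℤ) (c : ℝ), 0 < c ∧
        X.nef = {x | ∃ s t : ℝ, 0 ≤ s ∧ 0 ≤ t ∧ x = s • toR D + t • toR E} ∧
        ∀ s t : ℝ, X.top (s • toR D + t • toR E) = c * s ^ 2 * t ^ 2 := by
  refine ⟨⟨fun ⟨X⟩ => ?_, fun h => ?_⟩, fun X hr => ?_⟩
  · rcases X.classification with h | h
    · exact Or.inl h
    · exact Or.inr h.1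
  · rcases h with rfl | rfl
    · exact ⟨exampleFourOne⟩
    · exact ⟨exampleFourTwo⟩
  · rcases X.classification with h | h
    · omega
    · exact h.2

end Pool.Agent.Results.MP_1e3e9c_ag.FourfoldPicardTwo
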