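import Mathlib

/-!
# Kronecker's theorem for a line in a torus

If the coordinates of the vector `D` are linearly independent over the rational numbers, then the
half line of the positive multiples of `D` is dense modulo the integral vectors.
-/

set_option autoImplicit false

namespace Pool.Agent.Kobayashi

open MeasureTheory Filter Topology Set UnitAddTorus

variable {r : ℕ}

/-- Haar probability measure of the torus. -/
noncomputable def mu (r : ℕ) : Measure (UnitAddTorus (Fin r)) :=
  Measure.pi fun _ => (AddCircle.haarAddCircle : Measure UnitAddCircle)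

instance : IsProbabilityMeasure (mu r) := by unfold mu; infer_instance

instance : (mu r).IsOpenPosMeasure := by unfold mu; infer_instance

/-- The line with direction `D`. -/
noncomputable def line (D : Fin r → ℝ) (t : ℝ) : UnitAddTorus (Fin r) :=
  fun i => ((t * D i : ℝ) : UnitAddCircle)

theorem line_continuous (D : Fin r → ℝ) : Continuous (line D) := by
  unfold line
  exact continuous_pi fun i => (AddCircle.continuous_mk' 1).comp (continuous_id.mul continuous_const)

theorem mFourier_line (D : Fin r → ℝ) (n : Fin r → ℤ) (t : ℝ) :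
    mFourier n (line D t) = Complex.exp (2 * Real.pi * Complex.I * (∑ i, n i * D i : ℝ) * t) := by
  have h : ∀ i, fourier (n i) ((t * D i : ℝ) : UnitAddCircle) =
      Complex.exp (2 * Real.pi * Complex.I * ((n i : ℝ) * D i : ℝ) * t) := by
    intro i
    rw [fourier_coe_apply]
    congr 1
    push_cast
    ring
  show ∏ i, fourier (n i) (line D t i) = _
  unfold line
  simp_rw [h]
  rw [← Complex.exp_sum]
  congr 1
  push_cast
  rw [Finset.mul_sum, Finset.sum_mul]

theorem integral_mFourier (n : Fin r → ℤ) :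
    ∫ x, mFourier n x ∂mu r = if n = 0 then 1 else 0 := by
  split_ifs with h
  · subst h
    rw [mFourier_zero]
    simp
  · have h1 : ∫ x, mFourier n x ∂mu r = ∏ i, ∫ y, fourier (n i) y ∂AddCircle.haarAddCircle :=
      integral_fintype_prod_eq_prod (μ := fun _ => AddCircle.haarAddCircle)
        (fun i (y : UnitAddCircle) => (fourier (n i) y : ℂ))
    rw [h1]
    obtain ⟨i, hi⟩ := Function.ne_iff.1 h
    refine Finset.prod_eq_zero (Finset.mem_univ i) ?_
    have h2 := fourierCoeff_fourier (T := (1 : ℝ)) (n i)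
    have h3 := congrFun h2 0
    unfold fourierCoeff at h3
    simp only [neg_zero, fourier_zero, one_smul] at h3
    rw [h3]
    rw [Pi.single_apply, if_neg]
    exact fun h4 => hi h4.symm

/-- Average over an initial segment of the line. -/
noncomputable def avg (D : Fin r → ℝ) (f : C(UnitAddTorus (Fin r), ℂ)) (T : ℝ) : ℂ :=
  (T : ℂ)⁻¹ * ∫ t in (0 : ℝ)..T, f (line D t)

theorem avg_mFourier {D : Fin r → ℝ} (hD : ∀ n : Fin r → ℤ, n ≠ 0 → ∑ i, n i * D i ≠ 0)
    (n : Fin r → ℤ) :
    Tendsto (avg D (mFourier n)) atTop (𝓝 (∫ x, mFourier n x ∂mu r)) := by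
  rw [integral_mFourier]
  split_ifs with h
  · subst h
    refine tendsto_const_nhds.congr' ?_
    filter_upwards [eventually_gt_atTop (0 : ℝ)] with T hT
    unfold avg
    rw [mFourier_zero]
    simp only [ContinuousMap.one_apply, intervalIntegral.integral_const, sub_zero, Complex.real_smul,
      mul_one]
    have : (T : ℂ) ≠ 0 := by exact_mod_cast hT.ne'
    rw [inv_mul_cancel₀ this]
  · set s := ∑ i, n i * D i with hs
    have hs0 : s ≠ 0 := hD n h
    set c : ℂ := 2 * Real.pi * Complex.I * (s : ℝ) with hc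
    have hc0 : c ≠ 0 := by
      rw [hc]
      have h1 : (s : ℂ) ≠ 0 := by exact_mod_cast hs0
      have h2 : (Real.pi : ℂ) ≠ 0 := by exact_mod_cast Real.pi_ne_zero
      simp [h1, h2]
    have h1 : ∀ T : ℝ, avg D (mFourier n) T = (T : ℂ)⁻¹ * ((Complex.exp (c * T) - 1) / c) := by
      intro T
      unfold avg
      congr 1
      simp_rw [mFourier_line]
      rw [← hs, ← hc, integral_exp_mul_complex hc0]
      simp
    have h2 : ∀ T : ℝ, ‖Complex.exp (c * T)‖ = 1 := by
      intro T
      rw [hc, show (2 * Real.pi * Complex.I * (s : ℝ) * T : ℂ) = ((2 * Real.pi * s * T : ℝ) : ℂ) * Complex.I by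
        push_cast; ring]
      exact Complex.norm_exp_ofReal_mul_I _
    rw [tendsto_zero_iff_norm_tendsto_zero]
    have h3 : ∀ᶠ T : ℝ in atTop, ‖avg D (mFourier n) T‖ ≤ T⁻¹ * (2 / ‖c‖) := by
      filter_upwards [eventually_gt_atTop (0 : ℝ)] with T hT
      rw [h1, norm_mul, norm_inv, norm_div, Complex.norm_real, Real.norm_of_nonneg hT.le]
      refine mul_le_mul_of_nonneg_left ?_ (inv_nonneg.2 hT.le)
      refine div_le_div_of_nonneg_right ?_ (norm_nonneg _)
      refine (norm_sub_le _ _).trans ?_
      rw [h2, norm_one]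
      norm_num
    refine squeeze_zero' (Eventually.of_forall fun T => norm_nonneg _) h3 ?_
    have h4 : Tendsto (fun T : ℝ => T⁻¹ * (2 / ‖c‖)) atTop (𝓝 (0 * (2 / ‖c‖))) :=
      tendsto_inv_atTop_zero.mul_const _
    rwa [zero_mul] at h4

theorem avg_span {D : Fin r → ℝ} (hD : ∀ n : Fin r → ℤ, n ≠ 0 → ∑ i, n i * D i ≠ 0)
    {p : C(UnitAddTorus (Fin r), ℂ)}
    (hp : p ∈ Submodule.span ℂ (range (mFourier (d := Fin r)))) :
    Tendsto (avg D p) atTop (𝓝 (∫ x, p x ∂mu r)) := by
  have hint : ∀ f : C(UnitAddTorus (Fin r), ℂ), Integrable (fun x => f x) (mu r) := fun f =>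
    f.continuous.integrable_of_hasCompactSupport (HasCompactSupport.of_compactSpace _)
  have hii : ∀ (f : C(UnitAddTorus (Fin r), ℂ)) (a b : ℝ),
      IntervalIntegrable (fun t => f (line D t)) volume a b := fun f a b =>
    (f.continuous.comp (line_continuous D)).intervalIntegrable a b
  induction hp using Submodule.span_induction with
  | mem x hx =>
    obtain ⟨n, rfl⟩ := hx
    exact avg_mFourier hD n
  | zero =>
    have h : avg D (0 : C(UnitAddTorus (Fin r), ℂ)) = fun _ => 0 := by
      funext T
      simp [avg]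
    rw [h]
    simp
  | add x y _ _ hx hy =>
    have h : avg D (x + y) = fun T => avg D x T + avg D y T := by
      funext T
      unfold avg
      simp only [ContinuousMap.add_apply]
      rw [intervalIntegral.integral_add (hii x 0 T) (hii y 0 T), mul_add]
    rw [h]
    simp only [ContinuousMap.add_apply]
    rw [integral_add (hint x) (hint y)]
    exact hx.add hy
  | smul a x _ hx =>
    have h : avg D (a • x) = fun T => a * avg D x T := by
      funext T
      unfold avg
      simp only [ContinuousMap.smul_apply, smul_eq_mul]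
      rw [intervalIntegral.integral_const_mul]
      ring
    rw [h]
    simp only [ContinuousMap.smul_apply, smul_eq_mul]
    rw [integral_const_mul]
    exact hx.const_mul a

theorem avg_norm_le {D : Fin r → ℝ} {f : C(UnitAddTorus (Fin r), ℂ)} {M : ℝ}
    (h : ∀ x, ‖f x‖ ≤ M) {T : ℝ} (hT : 0 < T) : ‖avg D f T‖ ≤ M := by
  unfold avg
  rw [norm_mul, norm_inv, Complex.norm_real, Real.norm_of_nonneg hT.le]
  have h1 := intervalIntegral.norm_integral_le_of_norm_le_const (a := 0) (b := T)
    (f := fun t => f (line D t)) (C := M) fun t _ => h _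
  rw [sub_zero, abs_of_pos hT] at h1
  calc T⁻¹ * ‖∫ t in (0 : ℝ)..T, f (line D t)‖ ≤ T⁻¹ * (M * T) :=
        mul_le_mul_of_nonneg_left h1 (inv_nonneg.2 hT.le)
    _ = M := by field_simp

/-- Every nonempty open subset of the torus is met by the half line. -/
theorem exists_line_mem {D : Fin r → ℝ} (hD : ∀ n : Fin r → ℤ, n ≠ 0 → ∑ i, n i * D i ≠ 0)
    {V : Set (UnitAddTorus (Fin r))} (hV : IsOpen V) (hne : V.Nonempty) :
    ∃ t : ℝ, 0 ≤ t ∧ line D t ∈ V := by
  by_contra hcon
  push Not at hcon
  obtain ⟨x0, hx0⟩ := hne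
  obtain ⟨δ, hδ, hball⟩ := Metric.isOpen_iff.1 hV x0 hx0
  set g : UnitAddTorus (Fin r) → ℝ := fun x => max 0 (δ - dist x x0) with hg
  have hgc : Continuous g := continuous_const.max (continuous_const.sub (continuous_id.dist continuous_const))
  have hg0 : ∀ x, x ∉ V → g x = 0 := by
    intro x hx
    have : δ ≤ dist x x0 := by
      by_contra h
      push Not at h
      exact hx (hball (Metric.mem_ball.2 h))
    exact max_eq_left (by linarith)
  have hpos : 0 < ∫ x, g x ∂mu r := by
    refine hgc.integral_pos_of_hasCompactSupport_nonneg_nonzero (HasCompactSupport.of_compactSpace _)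
      (fun x => le_max_left _ _) (x := x0) ?_
    simp only [hg, dist_self, sub_zero]
    exact (lt_max_of_lt_right hδ).ne'
  set c := ∫ x, g x ∂mu r with hcdef
  let f : C(UnitAddTorus (Fin r), ℂ) := ⟨fun x => (g x : ℂ), Complex.continuous_ofReal.comp hgc⟩
  have hfint : ∫ x, f x ∂mu r = (c : ℂ) := by
    show ∫ x, (g x : ℂ) ∂mu r = _
    rw [integral_complex_ofReal]
  have hmem : f ∈ (Submodule.span ℂ (range (mFourier (d := Fin r)))).topologicalClosure := by
    rw [span_mFourier_closure_eq_top]
    trivial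
  have hmem' : f ∈ closure (Submodule.span ℂ (range (mFourier (d := Fin r))) :
      Set C(UnitAddTorus (Fin r), ℂ)) := hmem
  obtain ⟨p, hp, hpd⟩ := Metric.mem_closure_iff.1 hmem' (c / 4) (by positivity)
  have hnorm : ∀ x, ‖(f - p) x‖ ≤ c / 4 := fun x => by
    rw [dist_eq_norm] at hpd
    exact ((f - p).norm_coe_le_norm x).trans hpd.le
  have h1 : ‖∫ x, p x ∂mu r‖ ≤ c / 4 := by
    refine le_of_tendsto (avg_span hD hp).norm ?_
    filter_upwards [eventually_gt_atTop (0 : ℝ)] with T hT
    have h2 : avg D p T = - avg D (f - p) T := by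
      unfold avg
      rw [← mul_neg, ← intervalIntegral.integral_neg]
      congr 1
      refine intervalIntegral.integral_congr fun t ht => ?_
      rw [uIcc_of_le hT.le] at ht
      have h3 : f (line D t) = 0 := by
        show ((g (line D t) : ℝ) : ℂ) = 0
        rw [hg0 _ (hcon t ht.1)]
        simp
      simp only [ContinuousMap.sub_apply, h3, zero_sub, neg_neg]
    rw [h2, norm_neg]
    exact avg_norm_le hnorm hT
  have h2 : ‖∫ x, (f - p) x ∂mu r‖ ≤ c / 4 := by
    have := norm_integral_le_of_norm_le_const (μ := mu r) (f := fun x => (f - p) x) (C := c / 4)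
      (Eventually.of_forall hnorm)
    simpa using this
  have hint : ∀ f : C(UnitAddTorus (Fin r), ℂ), Integrable (fun x => f x) (mu r) := fun f =>
    f.continuous.integrable_of_hasCompactSupport (HasCompactSupport.of_compactSpace _)
  have h3 : ∫ x, (f - p) x ∂mu r = (c : ℂ) - ∫ x, p x ∂mu r := by
    simp only [ContinuousMap.sub_apply]
    rw [integral_sub (hint f) (hint p), hfint]
  rw [h3] at h2
  have h4 : ‖(c : ℂ)‖ ≤ ‖(c : ℂ) - ∫ x, p x ∂mu r‖ + ‖∫ x, p x ∂mu r‖ := by
    have := norm_add_le ((c : ℂ) - ∫ x, p x ∂mu r) (∫ x, p x ∂mu r)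
    rwa [sub_add_cancel] at this
  rw [Complex.norm_real, Real.norm_of_nonneg hpos.le] at h4
  linarith

/-- **Kronecker's theorem**: some integral vector lies in `t D + U`, with `t ≥ 0`. -/
theorem kronecker {D : Fin r → ℝ} (hD : ∀ n : Fin r → ℤ, n ≠ 0 → ∑ i, n i * D i ≠ 0)
    {U : Set (Fin r → ℝ)} (hU : IsOpen U) (hne : U.Nonempty) :
    ∃ (t : ℝ) (z : Fin r → ℤ), 0 ≤ t ∧ (fun i => (z i : ℝ)) - t • D ∈ U := by
  have hop : IsOpenMap (Pi.map (fun _ : Fin r => ((↑) : ℝ → UnitAddCircle))) :=
    IsOpenMap.piMap (fun _ => QuotientAddGroup.isOpenMap_coe)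
      (by
        simp only [eventually_cofinite]
        exact Set.toFinite _)
  obtain ⟨t, ht, hm⟩ := exists_line_mem hD (hop _ hU.neg) (hne.neg.image _)
  obtain ⟨u, hu, hut⟩ := hm
  have h1 : ∀ i, ∃ k : ℤ, u i + k = t * D i := by
    intro i
    have h2 : ((u i : ℝ) : UnitAddCircle) = ((t * D i : ℝ) : UnitAddCircle) := congrFun hut i
    have h3 : ((t * D i - u i : ℝ) : UnitAddCircle) = 0 := by
      rw [AddCircle.coe_sub, h2, sub_self]
    obtain ⟨k, hk⟩ := (AddCircle.coe_eq_zero_iff 1).1 h3
    refine ⟨k, ?_⟩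
    rw [zsmul_eq_mul, mul_one] at hk
    linarith
  choose z hz using h1
  refine ⟨t, z, ht, ?_⟩
  have h3 : (fun i => (z i : ℝ)) - t • D = - u := by
    funext i
    simp only [Pi.sub_apply, Pi.smul_apply, smul_eq_mul, Pi.neg_apply]
    linarith [hz i]
  rw [h3]
  exact hu

end Pool.Agent.Kobayashi
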