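import Pool.Agent.Lib.MP_1e3e9c_ag.Count
import Pool.Agent.Lib.MP_1e3e9c_ag.Kron

/-!
# The dichotomy, and hyperbolic varieties
-/

set_option autoImplicit false

namespace Pool.Agent.Kobayashi

open Set Filter Topology

namespace KTrivialData

variable {n r : ℕ} (X : KTrivialData n r)

theorem card_add_card_le {a : V r} (ha : a ∈ X.amp) (T TM : Finset (Module.Dual ℝ (V r)))
    (hT : (↑T : Set (Module.Dual ℝ (V r))) ⊆ X.facets a) (hTM : TM ⊆ T)
    (hM : ∀ φ ∈ TM, ∀ x, φ x = 0 → ∀ i h, X.form (Function.update (fun _ => x) i h) = 0) :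
    T.card + TM.card ≤ n := by
  refine count_general X.form (a := a) (X.amp_pos _ fun _ => ha).ne' T TM hTM
    (fun φ hφ => X.facets_apply_self ha (hT hφ)) (fun φ hφ x hx => ?_) hM
  obtain ⟨w, hw, rfl⟩ := hT hφ
  exact X.facet_top hw ((X.nrm_eq_zero_iff ha hw).1 hx)

theorem facets_finite {a : V r} (ha : a ∈ X.amp) :
    (X.facets a).Finite ∧ (X.facets a).ncard ≤ n :=
  NumData.finite_of_card_le fun T hT => by
    have h1 := X.card_add_card_le ha T ∅ hT (Finset.empty_subset _)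
      (fun φ hφ => absurd hφ (Finset.notMem_empty φ))
    rwa [Finset.card_empty, add_zero] at h1

/-- If a boundary class of the nef cone lies on no rational hyperplane, then there are integral
ample classes `z` for which `z^n` is small with respect to `h · z^(n-1)`. -/
theorem small_slope {D : V r} (hD : D ∈ frontier X.amp)
    (hgen : ∀ w : Fin r → ℤ, w ≠ 0 → dot w D ≠ 0) {h : V r} (hh : h ∈ X.amp) {ε : ℝ}
    (hε : 0 < ε) : ∃ z : Fin r → ℤ, toR z ∈ X.amp ∧
      ∀ i, X.top (toR z) < ε * X.mix i h (toR z) := by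
  set δ : ℝ := ε / 2 ^ (n + 1) with hδ
  have hδ0 : 0 < δ := by positivity
  set U : Set (V r) := {u | u ∈ X.amp ∧ δ • h - u ∈ X.amp} with hU
  have hUo : IsOpen U := X.amp_open.inter
    (X.amp_open.preimage (continuous_const.sub continuous_id))
  have hUn : U.Nonempty := by
    refine ⟨(δ / 2) • h, X.amp_smul _ (by positivity) _ hh, ?_⟩
    have h1 : δ • h - (δ / 2) • h = (δ / 2) • h := by
      rw [← sub_smul]
      congr 1
      ring
    rw [h1]
    exact X.amp_smul _ (by positivity) _ hh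
  obtain ⟨t, z, ht, hz⟩ := kronecker (D := D) (fun w hw => hgen w hw) hUo hUn
  have hDn := (X.mem_frontier_iff.1 hD).1
  have hD0 : X.top D = 0 := X.top_eq_zero hDn (X.mem_frontier_iff.1 hD).2
  have hsum : t • D + ((fun i => (z i : ℝ)) - t • D) = toR z := by
    rw [add_sub_cancel]
    rfl
  have hza : toR z ∈ X.amp := by
    rw [← hsum, add_comm]
    exact X.amp_add_nef hz.1 (X.nef_smul hDn ht)
  refine ⟨z, hza, fun i => ?_⟩
  have h2 := X.top_le hDn hD0 ht hδ0.le (X.amp_sub_nef hz.1) (X.amp_sub_nef hh)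
    (X.amp_sub_nef hz.2) i
  rw [hsum] at h2
  have h3 : (0 : ℝ) < X.mix i h (toR z) := X.mix_pos i hh hza
  have h4 : (2 : ℝ) ^ n * (δ * X.mix i h (toR z)) = ε / 2 * X.mix i h (toR z) := by
    rw [hδ, pow_succ]
    field_simp
  rw [h4] at h2
  nlinarith

/-- The dichotomy. -/
theorem dichotomy :
    (∃ k : ℕ, k ≤ n ∧ r ≤ k ∧ ∃ w : Fin k → Fin r → ℤ, X.nef = {x | ∀ i, 0 ≤ dot (w i) x}) ∨
    (∀ h ∈ X.amp, ∀ ε : ℝ, 0 < ε → ∃ z : Fin r → ℤ, toR z ∈ X.amp ∧
      ∀ i, X.top (toR z) < ε * X.mix i h (toR z)) := by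
  by_cases hrel : ∀ D ∈ frontier X.amp, ∃ w : Fin r → ℤ, w ≠ 0 ∧ dot w D = 0
  · left
    obtain ⟨a, ha⟩ := X.amp_nonempty
    obtain ⟨hfin, hcard⟩ := X.facets_finite ha
    obtain ⟨h1, w, -, -, h2⟩ := X.exists_normals ha hfin hrel
    exact ⟨_, hcard, h1, w, h2⟩
  · right
    push Not at hrel
    obtain ⟨D, hD, hgen⟩ := hrel
    exact fun h hh ε hε => X.small_slope hD hgen hh hε

end KTrivialData

/-- Rational points of a rational hyperplane are dense. -/
theorem exists_rational {r : ℕ} {w : Fin r → ℤ} (hw : w ≠ 0) {x : V r} (hx : dot w x = 0)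
    {W : Set (V r)} (hW : IsOpen W) (hxW : x ∈ W) :
    ∃ (N : ℕ) (z : Fin r → ℤ), 0 < N ∧ dot w (toR z) = 0 ∧ ((N : ℝ)⁻¹) • (toR z : V r) ∈ W := by
  obtain ⟨j, hj⟩ := Function.ne_iff.1 hw
  have hj' : (w j : ℝ) ≠ 0 := by exact_mod_cast hj
  let P : V r → V r := fun y => (w j : ℝ) • y - dot w y • (Pi.single j 1 : V r)
  have hP : Continuous P :=
    (continuous_const_smul _).sub ((dot_continuous w).smul continuous_const)
  have hPw : ∀ y, dot w (P y) = 0 := by
    intro y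
    show dot w ((w j : ℝ) • y - dot w y • (Pi.single j 1 : V r)) = 0
    rw [dot_sub, dot_smul, dot_smul, dot_single]
    ring
  have hPs : ∀ (c : ℝ) (y : V r), P (c • y) = c • P y := by
    intro c y
    show (w j : ℝ) • (c • y) - dot w (c • y) • (Pi.single j 1 : V r) =
      c • ((w j : ℝ) • y - dot w y • (Pi.single j 1 : V r))
    rw [dot_smul, smul_sub, smul_smul, smul_smul, smul_smul, mul_comm c (w j : ℝ)]
  have hPx : P ((w j : ℝ)⁻¹ • x) = x := by
    rw [hPs]
    show (w j : ℝ)⁻¹ • ((w j : ℝ) • x - dot w x • (Pi.single j 1 : V r)) = x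
    rw [hx, zero_smul, sub_zero, smul_smul, inv_mul_cancel₀ hj', one_smul]
  set y : V r := (w j : ℝ)⁻¹ • x with hy
  have hyU : y ∈ P ⁻¹' W := by
    show P y ∈ W
    rw [hPx]
    exact hxW
  obtain ⟨ρ, hρ, hball⟩ := Metric.isOpen_iff.1 (hW.preimage hP) y hyU
  obtain ⟨N, hN⟩ := exists_nat_gt (1 / ρ)
  have hN0 : (0 : ℝ) < N := lt_trans (by positivity) hN
  have hN0' : 0 < N := by exact_mod_cast hN0
  let q : Fin r → ℤ := fun i => ⌊(N : ℝ) * y i⌋
  have hq : (N : ℝ)⁻¹ • (toR q : V r) ∈ Metric.ball y ρ := by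
    rw [Metric.mem_ball, dist_pi_lt_iff hρ]
    intro i
    have h1 : ((N : ℝ)⁻¹ • (toR q : V r)) i = (N : ℝ)⁻¹ * (⌊(N : ℝ) * y i⌋ : ℝ) := rfl
    rw [h1, Real.dist_eq]
    have h2 := Int.floor_le ((N : ℝ) * y i)
    have h3 := Int.lt_floor_add_one ((N : ℝ) * y i)
    have h4 : (N : ℝ)⁻¹ * (⌊(N : ℝ) * y i⌋ : ℝ) - y i =
        (N : ℝ)⁻¹ * ((⌊(N : ℝ) * y i⌋ : ℝ) - N * y i) := by
      field_simp
    rw [h4, abs_mul, abs_of_pos (inv_pos.2 hN0)]
    have h5 : |(⌊(N : ℝ) * y i⌋ : ℝ) - N * y i| ≤ 1 := by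
      rw [abs_le]
      constructor <;> linarith
    have h6 : (N : ℝ)⁻¹ * |(⌊(N : ℝ) * y i⌋ : ℝ) - N * y i| ≤ (N : ℝ)⁻¹ * 1 :=
      mul_le_mul_of_nonneg_left h5 (inv_pos.2 hN0).le
    refine lt_of_le_of_lt h6 ?_
    rw [mul_one, inv_lt_comm₀ hN0 hρ, ← one_div]
    exact hN
  have hPz : P ((N : ℝ)⁻¹ • (toR q : V r)) ∈ W := hball hq
  let z : Fin r → ℤ := fun i => w j * q i - (∑ l, w l * q l) * (Pi.single j 1 : Fin r → ℤ) i
  have hPq : P (toR q) = toR z := by
    funext i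
    show (w j : ℝ) * (q i : ℝ) - dot w (toR q) * (Pi.single j 1 : V r) i = _
    unfold toR dot
    simp only [z]
    push_cast
    congr 2
    by_cases hij : i = j
    · subst hij
      rw [Pi.single_eq_same, Pi.single_eq_same, Int.cast_one]
    · rw [Pi.single_eq_of_ne hij, Pi.single_eq_of_ne hij, Int.cast_zero]
  refine ⟨N, z, hN0', ?_, ?_⟩
  · rw [← hPq]
    exact hPw _
  · rw [hPs, hPq] at hPz
    exact hPz

/-- A form which does not vanish at `x` does not vanish at some point of the line through `D` and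
`x` close to `D`. -/
theorem exists_ne_zero_near {k r : ℕ} (f : MultilinearMap ℝ (fun _ : Fin k => V r) ℝ)
    {D x : V r} (hx : f (fun _ => x) ≠ 0) {W : Set (V r)} (hW : IsOpen W) (hD : D ∈ W) :
    ∃ t : ℝ, D + t • (x - D) ∈ W ∧ f (fun _ => D + t • (x - D)) ≠ 0 := by
  have h0 : Continuous fun t : ℝ => D + t • (x - D) := by fun_prop
  have h1 : ∀ᶠ t in 𝓝 (0 : ℝ), D + t • (x - D) ∈ W := by
    refine h0.tendsto 0 ?_
    rw [zero_smul, add_zero]
    exact hW.mem_nhds hD
  by_contra hcon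
  push Not at hcon
  have h2 : ∀ᶠ t in 𝓝 (0 : ℝ), f (fun _ => D + t • (x - D)) = 0 := by
    filter_upwards [h1] with t ht
    exact hcon t ht
  have h3 := multi_zero_of_near f h2 1
  rw [one_smul, add_sub_cancel] at h3
  exact hx h3

theorem cons_eq_update {m r : ℕ} (h x : V r) :
    (Fin.cons h (fun _ => x) : Fin (m + 2) → V r) = Function.update (fun _ => x) 0 h := by
  funext i
  refine Fin.cases ?_ (fun j => ?_) i
  · rw [Fin.cons_zero, Function.update_self]
  · rw [Fin.cons_succ, Function.update_of_ne (Fin.succ_ne_zero j)]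

namespace HyperbolicData

variable {m r : ℕ} (X : HyperbolicData m r)

theorem c2_nonneg {x : Fin m → V r} (hx : ∀ i, x i ∈ X.nef) : 0 ≤ X.c2 x := by
  have h1 : IsClosed {y : Fin m → V r | 0 ≤ X.c2 y} :=
    isClosed_le continuous_const (multi_continuous X.c2)
  have h2 : Set.pi univ (fun _ : Fin m => X.amp) ⊆ {y : Fin m → V r | 0 ≤ X.c2 y} :=
    fun y hy => (X.c2_pos y fun i => hy i (mem_univ i)).le
  have h3 : x ∈ closure (Set.pi univ (fun _ : Fin m => X.amp)) := by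
    rw [closure_pi_set]
    exact fun i _ => hx i
  exact h1.closure_subset_iff.2 h2 h3

/-- Every boundary class of the nef cone lies on a rational hyperplane. -/
theorem rel {D : V r} (hD : D ∈ frontier X.amp) : ∃ w : Fin r → ℤ, w ≠ 0 ∧ dot w D = 0 := by
  by_contra hcon
  push Not at hcon
  obtain ⟨a, ha⟩ := X.amp_nonempty
  obtain ⟨k, hk, hci⟩ := X.complete_intersection
  obtain ⟨ε, hε, hah⟩ := X.algebraic_hyperbolicity a ha
  have hk0 : (0 : ℝ) < k := by exact_mod_cast hk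
  obtain ⟨z, hz, hslope⟩ := X.small_slope hD hcon ha (ε := ε / ((m + 1) * k)) (by positivity)
  obtain ⟨C, hdeg, hgen⟩ := hci z hz
  have h1 := hah C
  rw [hgen, hdeg] at h1
  have h2 : X.form (fun _ => toR z) < ε / ((m + 1) * k) *
      X.form (Function.update (fun _ => toR z) 0 a) := hslope 0
  have h3 : (0 : ℝ) < (m + 1) * (k : ℝ) ^ (m + 2) := by positivity
  have h4 := mul_lt_mul_of_pos_left h2 h3
  have h5 : (m + 1) * (k : ℝ) ^ (m + 2) * (ε / ((m + 1) * k) *
      X.form (Function.update (fun _ => toR z) 0 a)) =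
      ε * ((k : ℝ) ^ (m + 1) * X.form (Function.update (fun _ => toR z) 0 a)) := by
    rw [pow_succ _ (m + 1)]
    field_simp
  rw [h5] at h4
  linarith

/-- Type of a facet: the classes `D^(n-1)` vanish on its hyperplane, or the numbers
`c_2(X) · D^(n-2)` do. -/
theorem facet_type {w : Fin r → ℤ} (hw : X.IsFacet w) :
    (∀ x, dot w x = 0 → ∀ i h, X.form (Function.update (fun _ => x) i h) = 0) ∨
      (∀ x, dot w x = 0 → X.c2 (fun _ => x) = 0) := by
  by_contra hcon
  push Not at hcon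
  obtain ⟨⟨x₁, hx₁, i, h, h1⟩, x₂, hx₂, h2⟩ := hcon
  have h1' : X.form.curryLeft h (fun _ => x₁) ≠ 0 := by
    rw [MultilinearMap.curryLeft_apply, cons_eq_update]
    have := X.mix_eq i 0 h x₁
    unfold NumData.mix at this
    rw [← this]
    exact h1
  have hwf := hw
  obtain ⟨hw0, hpos, D, ρ, hρ, hD, hball⟩ := hw
  obtain ⟨t, htb, ht⟩ := exists_ne_zero_near (X.form.curryLeft h) h1' (W := Metric.ball D ρ)
    Metric.isOpen_ball (Metric.mem_ball_self hρ)
  set D' := D + t • (x₁ - D) with hD'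
  have hD'w : dot w D' = 0 := KTrivialData.facet_line hD hx₁ t
  have hc1 : Continuous fun u : V r => X.form.curryLeft h (fun _ => u) :=
    (multi_continuous (X.form.curryLeft h)).comp (continuous_pi fun _ => continuous_id)
  have hc2 : Continuous fun u : V r => X.c2 (fun _ => u) :=
    (multi_continuous X.c2).comp (continuous_pi fun _ => continuous_id)
  have hW1 : IsOpen (Metric.ball D ρ ∩ {u : V r | X.form.curryLeft h (fun _ => u) ≠ 0}) :=
    Metric.isOpen_ball.inter (isOpen_ne_fun hc1 continuous_const)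
  obtain ⟨s, hsb, hs⟩ := exists_ne_zero_near X.c2 h2 hW1 ⟨htb, ht⟩
  set D'' := D' + s • (x₂ - D') with hD''
  have hD''w : dot w D'' = 0 := KTrivialData.facet_line hD'w hx₂ s
  have hW2 : IsOpen ((Metric.ball D ρ ∩ {u : V r | X.form.curryLeft h (fun _ => u) ≠ 0}) ∩
      {u : V r | X.c2 (fun _ => u) ≠ 0}) := hW1.inter (isOpen_ne_fun hc2 continuous_const)
  obtain ⟨N, z, hN, hzw, hzW⟩ := exists_rational hw0 hD''w hW2 ⟨hsb, hs⟩
  have hN0 : (0 : ℝ) < N := by exact_mod_cast hN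
  set y : V r := (N : ℝ)⁻¹ • (toR z : V r) with hy
  have hyz : (N : ℝ) • y = toR z := by
    rw [hy, smul_smul, mul_inv_cancel₀ hN0.ne', one_smul]
  have hyw : dot w y = 0 := by rw [hy, dot_smul, hzw, mul_zero]
  have hyn : y ∈ X.nef := hball y hzW.1.1 hyw
  have hzn : toR z ∈ X.nef := by
    rw [← hyz]
    exact X.nef_smul hyn hN0.le
  have hztop : X.form (fun _ => toR z) = 0 := X.facet_top hwf hzw
  have hzmix : X.form (Function.update (fun _ => toR z) 0 h) ≠ 0 := by
    rw [← cons_eq_update, ← MultilinearMap.curryLeft_apply, ← hyz]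
    have h3 := (X.form.curryLeft h).map_smul_univ (fun _ => (N : ℝ)) (fun _ => y)
    rw [h3, Finset.prod_const, smul_eq_mul]
    exact mul_ne_zero (pow_ne_zero _ hN0.ne') hzW.1.2
  have hzc : X.c2 (fun _ => toR z) ≠ 0 := by
    rw [← hyz]
    have h3 := X.c2.map_smul_univ (fun _ => (N : ℝ)) (fun _ => y)
    rw [h3, Finset.prod_const, smul_eq_mul]
    exact mul_ne_zero (pow_ne_zero _ hN0.ne') hzW.2
  have h4 := X.no_elliptic_fibration z hzn hztop ⟨h, hzmix⟩
  have h5 := X.c2_nonneg (x := fun _ => toR z) (fun _ => hzn)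
  exact hzc (le_antisymm h4 h5)

/-- The form `D^(n-1)` vanishes on the kernel. -/
def TypeM (φ : Module.Dual ℝ (V r)) : Prop :=
  ∀ x, φ x = 0 → ∀ i h, X.form (Function.update (fun _ => x) i h) = 0

/-- The form `c_2(X) · D^(n-2)` vanishes on the kernel. -/
def TypeC (φ : Module.Dual ℝ (V r)) : Prop := ∀ x, φ x = 0 → X.c2 (fun _ => x) = 0

theorem type_of_facet {a : V r} (ha : a ∈ X.amp) {φ : Module.Dual ℝ (V r)}
    (hφ : φ ∈ X.facets a) : X.TypeM φ ∨ X.TypeC φ := by
  obtain ⟨w, hw, rfl⟩ := hφ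
  rcases X.facet_type hw with h | h
  · exact Or.inl fun x hx => h x ((X.nrm_eq_zero_iff ha hw).1 hx)
  · exact Or.inr fun x hx => h x ((X.nrm_eq_zero_iff ha hw).1 hx)

theorem typeM_card {a : V r} (ha : a ∈ X.amp) (T TM : Finset (Module.Dual ℝ (V r)))
    (hT : (↑T : Set (Module.Dual ℝ (V r))) ⊆ X.facets a) (hTM : TM ⊆ T)
    (hM : ∀ φ ∈ TM, X.TypeM φ) : T.card + TM.card ≤ m + 2 :=
  X.card_add_card_le ha T TM hT hTM hM

theorem typeC_card {a : V r} (ha : a ∈ X.amp) (T : Finset (Module.Dual ℝ (V r)))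
    (hT : (↑T : Set (Module.Dual ℝ (V r))) ⊆ X.facets a)
    (hC : ∀ φ ∈ T, X.TypeC φ) : T.card ≤ m := by
  have h1 := count_general X.c2 (a := a) (X.c2_pos _ fun _ => ha).ne' T ∅ (Finset.empty_subset _)
    (fun φ hφ => X.facets_apply_self ha (hT hφ)) hC
    (fun φ hφ => absurd hφ (Finset.notMem_empty φ))
  rwa [Finset.card_empty, add_zero] at h1

theorem facets_card {a : V r} (ha : a ∈ X.amp) : (X.facets a).ncard ≤ m + 1 := by
  classical
  obtain ⟨hfin, -⟩ := X.facets_finite ha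
  rw [Set.ncard_eq_toFinset_card _ hfin]
  set T := hfin.toFinset with hTdef
  have hT : (↑T : Set (Module.Dual ℝ (V r))) ⊆ X.facets a := by simp [hTdef]
  have h1 := X.typeM_card ha T (T.filter X.TypeM) hT (Finset.filter_subset _ _)
    (fun φ hφ => (Finset.mem_filter.1 hφ).2)
  have h2 := X.typeC_card ha (T.filter X.TypeC)
    ((Finset.coe_subset.2 (Finset.filter_subset _ _)).trans hT)
    (fun φ hφ => (Finset.mem_filter.1 hφ).2)
  have h3 : T ⊆ T.filter X.TypeM ∪ T.filter X.TypeC := by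
    intro φ hφ
    rcases X.type_of_facet ha (hT hφ) with h | h
    · exact Finset.mem_union_left _ (Finset.mem_filter.2 ⟨hφ, h⟩)
    · exact Finset.mem_union_right _ (Finset.mem_filter.2 ⟨hφ, h⟩)
  have h4 := (Finset.card_le_card h3).trans (Finset.card_union_le _ _)
  omega

/-- The nef cone of a hyperbolic variety with trivial canonical class is rational polyhedral, with
at most `n - 1` facets. -/
theorem polyhedral : ∃ k : ℕ, k ≤ m + 1 ∧ r ≤ k ∧ ∃ w : Fin k → Fin r → ℤ,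
    X.nef = {x | ∀ i, 0 ≤ dot (w i) x} := by
  obtain ⟨a, ha⟩ := X.amp_nonempty
  obtain ⟨hfin, -⟩ := X.facets_finite ha
  obtain ⟨h1, w, -, -, h2⟩ := X.exists_normals ha hfin (fun D hD => X.rel hD)
  exact ⟨_, X.facets_card ha, h1, w, h2⟩

end HyperbolicData

end Pool.Agent.Kobayashi
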