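import Pool.Agent.Lib.MP_1e3e9c_ag.Main

/-!
# The nef cone of a variety with trivial canonical class and without rational curves

`KTrivialData n r` holds the numerical data (intersection form, ample cone, lattice) of a smooth
projective variety of dimension `n` and Picard number `r` with numerically trivial canonical class
and without rational curves: its nef and big classes are ample.

Either the nef cone is rational polyhedral with at most `n` facets (so that `r ≤ n`), or there are
integral ample classes `z` for which the number `z^n` is arbitrarily small with respect to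
`h · z^(n-1)`, for every ample class `h`.
-/

set_option autoImplicit false

namespace Pool.Agent.Results.MP_1e3e9c_ag.NefDichotomy

open Pool.Agent.Kobayashi

theorem result (n r : ℕ) (X : KTrivialData n r) :
    (∃ k : ℕ, k ≤ n ∧ r ≤ k ∧ ∃ w : Fin k → Fin r → ℤ, X.nef = {x | ∀ i, 0 ≤ dot (w i) x}) ∨
    (∀ h ∈ X.amp, ∀ ε : ℝ, 0 < ε → ∃ z : Fin r → ℤ, toR z ∈ X.amp ∧
      ∀ i, X.top (toR z) < ε * X.mix i h (toR z)) :=
  X.dichotomy

end Pool.Agent.Results.MP_1e3e9c_ag.NefDichotomy
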