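import Pool.Agent.Lib.MP_1e3e9c_ag.Main

/-!
# The Picard number of a hyperbolic variety with trivial canonical class

`HyperbolicData m r` holds the numerical data of a Kobayashi hyperbolic smooth projective variety
of dimension `n = m + 2` and Picard number `r` with numerically trivial canonical class. Its nef
cone is rational polyhedral with at most `n - 1` facets; in particular `r ≤ n - 1`.
-/

set_option autoImplicit false

namespace Pool.Agent.Results.MP_1e3e9c_ag.PicardBound

open Pool.Agent.Kobayashi

theorem result (m r : ℕ) (X : HyperbolicData m r) :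
    ∃ k : ℕ, k ≤ m + 1 ∧ r ≤ k ∧ ∃ w : Fin k → Fin r → ℤ, X.nef = {x | ∀ i, 0 ≤ dot (w i) x} :=
  X.polyhedral

end Pool.Agent.Results.MP_1e3e9c_ag.PicardBound
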