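import Pool.Agent.Lib.MP_1e3e9c_ag.Main

/-!
# Threefolds
-/

set_option autoImplicit false

namespace Pool.Agent.Kobayashi

open Set Filter Topology

/-- The rotated vector, an integral generator of the kernel of `dot w` for `r = 2`. -/
def rot (w : Fin 2 → ℤ) : Fin 2 → ℤ := ![w 1, -w 0]

theorem dot_two (w : Fin 2 → ℤ) (x : V 2) : dot w x = w 0 * x 0 + w 1 * x 1 := by
  unfold dot
  rw [Fin.sum_univ_two]

theorem dot_rot (v w : Fin 2 → ℤ) : dot v (toR (rot w)) = v 0 * w 1 - v 1 * w 0 := by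
  rw [dot_two]
  show (v 0 : ℝ) * ((w 1 : ℤ) : ℝ) + v 1 * ((-w 0 : ℤ) : ℝ) = _
  push_cast
  ring

theorem toR_smul {r : ℕ} (c : ℤ) (z : Fin r → ℤ) : (toR (c • z) : V r) = (c : ℝ) • toR z := by
  funext i
  show (((c • z) i : ℤ) : ℝ) = (c : ℝ) * ((z i : ℤ) : ℝ)
  rw [Pi.smul_apply, smul_eq_mul, Int.cast_mul]

namespace HyperbolicData

variable {r : ℕ}

theorem r_pos {m : ℕ} (X : HyperbolicData m r) : 0 < r := by
  rcases Nat.eq_zero_or_pos r with h | h
  · exfalso
    subst h
    obtain ⟨a, ha⟩ := X.amp_nonempty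
    have h1 := X.amp_pos (fun _ => a) (fun _ => ha)
    have h2 : X.form (fun _ => a) = 0 :=
      X.form.map_coord_zero 0 (Subsingleton.elim _ _)
    rw [h2] at h1
    exact lt_irrefl _ h1
  · exact h

/-- The two facets of the nef cone of a hyperbolic threefold of Picard number two. -/
theorem two_facets (X : HyperbolicData 1 2) :
    ∃ u v : Fin 2 → ℤ, X.IsFacet u ∧ X.IsFacet v ∧
      X.nef = {x | 0 ≤ dot u x ∧ 0 ≤ dot v x} ∧
      (∀ x, dot u x = 0 → ∀ i h, X.form (Function.update (fun _ => x) i h) = 0) ∧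
      (¬ ∀ x, dot u x = 0 → X.c2 (fun _ => x) = 0) ∧
      (∀ x, dot v x = 0 → X.c2 (fun _ => x) = 0) ∧
      (¬ ∀ x, dot v x = 0 → ∀ i h, X.form (Function.update (fun _ => x) i h) = 0) := by
  classical
  obtain ⟨a, ha⟩ := X.amp_nonempty
  obtain ⟨hfin, -⟩ := X.facets_finite ha
  have hk := X.facets_card ha
  obtain ⟨h1, w, hw, hinj, hnef⟩ := X.exists_normals ha hfin (fun D hD => X.rel hD)
  have hk2 : (X.facets a).ncard = 2 := by omega
  generalize (X.facets a).ncard = k at hk2 w hw hinj hnef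
  subst hk2
  set T : Finset (Module.Dual ℝ (V 2)) := Finset.univ.image (fun i => NumData.nrm a (w i)) with hT
  have hTc : T.card = 2 := by
    rw [hT, Finset.card_image_of_injective _ hinj, Finset.card_univ, Fintype.card_fin]
  have hTF : (↑T : Set (Module.Dual ℝ (V 2))) ⊆ X.facets a := by
    intro φ hφ
    obtain ⟨i, -, hi⟩ := Finset.mem_image.1 (Finset.mem_coe.1 hφ)
    exact ⟨w i, hw i, hi.symm⟩
  have hM : ¬ ∀ j, ∀ x, dot (w j) x = 0 → ∀ i h,
      X.form (Function.update (fun _ => x) i h) = 0 := by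
    intro hall
    have h2 := X.typeM_card ha T T hTF subset_rfl (fun φ hφ => by
      obtain ⟨j, -, rfl⟩ := Finset.mem_image.1 hφ
      exact fun x hx => hall j x ((X.nrm_eq_zero_iff ha (hw j)).1 hx))
    omega
  have hC : ¬ ∀ j, ∀ x, dot (w j) x = 0 → X.c2 (fun _ => x) = 0 := by
    intro hall
    have h2 := X.typeC_card ha T hTF (fun φ hφ => by
      obtain ⟨j, -, rfl⟩ := Finset.mem_image.1 hφ
      exact fun x hx => hall j x ((X.nrm_eq_zero_iff ha (hw j)).1 hx))
    omega
  rw [Fin.forall_fin_two] at hM hC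
  have hnef2 : X.nef = {x | 0 ≤ dot (w 0) x ∧ 0 ≤ dot (w 1) x} := by
    rw [hnef]
    ext x
    exact Fin.forall_fin_two
  rcases X.facet_type (hw 0) with h0 | h0 <;> rcases X.facet_type (hw 1) with h1 | h1
  · exact absurd ⟨h0, h1⟩ hM
  · exact ⟨w 0, w 1, hw 0, hw 1, hnef2, h0, fun h => hC ⟨h, h1⟩, h1, fun h => hM ⟨h0, h⟩⟩
  · refine ⟨w 1, w 0, hw 1, hw 0, ?_, h1, fun h => hC ⟨h0, h⟩, h0, fun h => hM ⟨h, h1⟩⟩
    rw [hnef2]
    ext x
    exact and_comm
  · exact absurd ⟨h0, h1⟩ hC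

/-- Hyperbolic threefolds of Picard number two look like the product of a K3 surface and an
elliptic curve. -/
theorem picard_two (X : HyperbolicData 1 2) :
    ∃ D E : Fin 2 → ℤ,
      X.nef = {x | ∃ s t : ℝ, 0 ≤ s ∧ 0 ≤ t ∧ x = s • toR D + t • toR E} ∧
      (∀ i h, X.mix i h (toR D) = 0) ∧ 0 < X.c2 (fun _ => toR D) ∧
      X.top (toR E) = 0 ∧ X.c2 (fun _ => toR E) = 0 ∧ ∀ i, 0 < X.mix i (toR D) (toR E) := by
  obtain ⟨u, v, hu, hv, hnef, hM, hnC, hC, hnM⟩ := X.two_facets
  have hdet : u 0 * v 1 - u 1 * v 0 ≠ 0 := by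
    intro h
    have h1 : dot u (toR (rot u)) = 0 := by
      rw [dot_rot]
      ring
    have h2 : dot v (toR (rot u)) = 0 := by
      rw [dot_rot]
      have : ((u 0 * v 1 - u 1 * v 0 : ℤ) : ℝ) = 0 := by exact_mod_cast h
      push_cast at this
      linarith
    have h3 : toR (rot u) = 0 := by
      refine X.salient _ ?_ ?_
      · show toR (rot u) ∈ X.nef
        rw [hnef]
        exact ⟨h1.ge, h2.ge⟩
      · show -toR (rot u) ∈ X.nef
        rw [hnef]
        refine ⟨?_, ?_⟩
        · rw [dot_neg, h1, neg_zero]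
        · rw [dot_neg, h2, neg_zero]
    refine hu.1 ?_
    have h4 : ((u 1 : ℤ) : ℝ) = 0 := congrFun h3 0
    have h5 : ((-u 0 : ℤ) : ℝ) = 0 := congrFun h3 1
    funext i
    fin_cases i
    · show u 0 = 0
      have : -u 0 = 0 := by exact_mod_cast h5
      omega
    · show u 1 = 0
      exact_mod_cast h4
  set σ : ℤ := (u 0 * v 1 - u 1 * v 0).sign with hσ
  have hσd : (σ : ℝ) * ((u 0 : ℝ) * v 1 - u 1 * v 0) = |((u 0 * v 1 - u 1 * v 0 : ℤ) : ℝ)| := by
    rw [← Int.cast_abs, ← Int.sign_mul_self_eq_abs (u 0 * v 1 - u 1 * v 0), ← hσ]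
    push_cast
    ring
  have hd0 : 0 < |((u 0 * v 1 - u 1 * v 0 : ℤ) : ℝ)| := abs_pos.2 (by exact_mod_cast hdet)
  set d : ℝ := |((u 0 * v 1 - u 1 * v 0 : ℤ) : ℝ)| with hd
  set D : Fin 2 → ℤ := (-σ) • rot u with hD
  set E : Fin 2 → ℤ := σ • rot v with hE
  have huD : dot u (toR D) = 0 := by
    rw [hD, toR_smul, dot_smul, dot_rot]
    ring
  have hvD : dot v (toR D) = d := by
    rw [hD, toR_smul, dot_smul, dot_rot, ← hσd]
    push_cast
    ring
  have hvE : dot v (toR E) = 0 := by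
    rw [hE, toR_smul, dot_smul, dot_rot]
    ring
  have huE : dot u (toR E) = d := by
    rw [hE, toR_smul, dot_smul, dot_rot, ← hσd]
  have hzero : ∀ x : V 2, dot u x = 0 → dot v x = 0 → x = 0 := by
    intro x h1 h2
    refine X.salient _ ?_ ?_
    · show x ∈ X.nef
      rw [hnef]
      exact ⟨h1.ge, h2.ge⟩
    · show -x ∈ X.nef
      rw [hnef]
      refine ⟨?_, ?_⟩
      · rw [dot_neg, h1, neg_zero]
      · rw [dot_neg, h2, neg_zero]
  have hdec : ∀ x : V 2, x = (dot v x / d) • toR D + (dot u x / d) • toR E := by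
    intro x
    rw [← sub_eq_zero]
    refine hzero _ ?_ ?_
    · rw [dot_sub, dot_add, dot_smul, dot_smul, huD, huE]
      field_simp
      ring
    · rw [dot_sub, dot_add, dot_smul, dot_smul, hvD, hvE]
      field_simp
      ring
  have hDn : toR D ∈ X.nef := by
    rw [hnef]
    exact ⟨huD.ge, by rw [hvD]; exact hd0.le⟩
  have hEn : toR E ∈ X.nef := by
    rw [hnef]
    exact ⟨by rw [huE]; exact hd0.le, hvE.ge⟩
  have hc2 : X.c2 (fun _ => toR D) ≠ 0 := by
    intro h
    apply hnC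
    intro x hx
    have h1 := hdec x
    rw [hx, zero_div, zero_smul, add_zero] at h1
    rw [h1]
    have h2 := X.c2.map_smul_univ (fun _ => dot v x / d) (fun _ => toR D)
    rw [h2, h, smul_zero]
  have htop : X.top (toR E) = 0 := X.facet_top hv hvE
  have hmix : X.mix 0 (toR D) (toR E) ≠ 0 := by
    intro h
    apply hnM
    intro x hx i k
    have h1 := hdec x
    rw [hx, zero_div, zero_smul, zero_add] at h1
    have h2 : X.form (Function.update (fun _ => x) i k) = X.mix i k x := rfl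
    rw [h2, X.mix_eq i 0]
    have h3 : X.mix 0 k x = (dot u x / d) ^ 2 * X.mix 0 k (toR E) := by
      conv_lhs => rw [h1]
      unfold NumData.mix
      rw [← cons_eq_update, ← MultilinearMap.curryLeft_apply, ← cons_eq_update,
        ← MultilinearMap.curryLeft_apply]
      have h4 := (X.form.curryLeft k).map_smul_univ (fun _ => dot u x / d) (fun _ => toR E)
      rw [h4, Finset.prod_const, smul_eq_mul, Finset.card_univ, Fintype.card_fin]
    have h5 : X.mix 0 k (toR E) = 0 := by
      rw [hdec k]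
      unfold NumData.mix
      rw [MultilinearMap.map_update_add, MultilinearMap.map_update_smul,
        MultilinearMap.map_update_smul]
      have h6 : X.form (Function.update (fun _ => toR E) 0 (toR E)) = 0 := by
        rw [Function.update_eq_self]
        exact htop
      have h7 : X.form (Function.update (fun _ => toR E) 0 (toR D)) = 0 := h
      rw [h6, h7, smul_zero, smul_zero, add_zero]
    rw [h3, h5, mul_zero]
  refine ⟨D, E, ?_, fun i k => hM _ huD i k, lt_of_le_of_ne (X.c2_nonneg fun _ => hDn) hc2.symm,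
    htop, hC _ hvE, fun i => ?_⟩
  · ext x
    constructor
    · intro hx
      have hx' := hx
      rw [hnef] at hx'
      exact ⟨_, _, div_nonneg hx'.2 hd0.le, div_nonneg hx'.1 hd0.le, hdec x⟩
    · rintro ⟨s, t, hs, ht, rfl⟩
      exact X.nef_add (X.nef_smul hDn hs) (X.nef_smul hEn ht)
  · rw [X.mix_eq i 0]
    refine lt_of_le_of_ne (X.form_nonneg fun j => ?_) hmix.symm
    by_cases hj : j = 0
    · subst hj
      rw [Function.update_self]
      exact hDn
    · rw [Function.update_of_ne hj]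
      exact hEn

/-- Hyperbolic threefolds with trivial canonical class: the Picard number is one, or it is two and
the variety looks like the product of a K3 surface and an elliptic curve. -/
theorem threefold (X : HyperbolicData 1 r) : r = 1 ∨ (r = 2 ∧ ∃ D E : Fin r → ℤ,
      X.nef = {x | ∃ s t : ℝ, 0 ≤ s ∧ 0 ≤ t ∧ x = s • toR D + t • toR E} ∧
      (∀ i h, X.mix i h (toR D) = 0) ∧ 0 < X.c2 (fun _ => toR D) ∧
      X.top (toR E) = 0 ∧ X.c2 (fun _ => toR E) = 0 ∧ ∀ i, 0 < X.mix i (toR D) (toR E)) := by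
  have h1 := X.r_pos
  obtain ⟨k, hk, hrk, -⟩ := X.polyhedral
  have h2 : r = 1 ∨ r = 2 := by omega
  rcases h2 with h2 | h2
  · exact Or.inl h2
  · right
    subst h2
    exact ⟨rfl, X.picard_two⟩

end HyperbolicData

theorem HyperbolicThreefoldData.picard_one {r : ℕ} (X : HyperbolicThreefoldData r) : r = 1 := by
  rcases X.toHyperbolicData.threefold with h | ⟨-, D, E, hnef, hD, hc, -⟩
  · exact h
  · exfalso
    have h1 : toR D ∈ X.nef := by
      rw [hnef]
      exact ⟨1, 0, zero_le_one, le_refl _, by rw [one_smul, zero_smul, add_zero]⟩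
    have h2 := X.no_k3_fibration D h1 (fun h => hD 0 h)
    exact absurd hc (not_lt.2 h2)

end Pool.Agent.Kobayashi
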