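import Pool.Agent.Lib.MP_1e3e9c_ag.Examples

/-!
# Hyperbolic threefolds with trivial canonical class have Picard number one

`HyperbolicThreefoldData r` holds the numerical data of a Kobayashi hyperbolic smooth projective
threefold of Picard number `r` with numerically trivial canonical class. Such data exist exactly
for `r = 1`.
-/

set_option autoImplicit false

namespace Pool.Agent.Results.MP_1e3e9c_ag.ThreefoldPicardOne

open Pool.Agent.Kobayashi

theorem result (r : ℕ) : Nonempty (HyperbolicThreefoldData r) ↔ r = 1 :=
  ⟨fun ⟨X⟩ => X.picard_one, fun h => h ▸ ⟨exampleOne⟩⟩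

end Pool.Agent.Results.MP_1e3e9c_ag.ThreefoldPicardOne
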